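import Pool.Agent.H11ST.St2
open MeasureTheory Metric Set Filter Topology Real
open scoped ENNReal NNReal

/-! # The phase argument in the plane (`ST_PH`) -/

namespace H11ST.Ph
set_option linter.unusedSectionVars false

def cN : ℕ → ℕ
  | 4 => 3864000
  | 5 => 4655600
  | 6 => 5000000
  | 7 => 5207452
  | 8 => 5358166
  | 9 => 5472761
  | 10 => 5562637
  | 11 => 5634908
  | 12 => 5694223
  | 13 => 5743741
  | 14 => 5785681
  | 15 => 5821642
  | 16 => 5852807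
  | 17 => 5880069
  | 18 => 5904112
  | 19 => 5925470
  | 20 => 5944568
  | 21 => 5961743
  | 22 => 5977271
  | 23 => 5991376
  | 24 => 6004245
  | 25 => 6016032
  | 26 => 6026869
  | 27 => 6036864
  | 28 => 6046113
  | 29 => 6054694
  | 30 => 6062679
  | 31 => 6070126
  | 32 => 6077088
  | 33 => 6083612
  | 34 => 6089736
  | 35 => 6095496
  | 36 => 6100924
  | 37 => 6106048
  | 38 => 6110893
  | 39 => 6115480
  | _ => 0

def uN : ℕ → ℕ
  | 5 => 1000000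
  | 6 => 3028069
  | 7 => 3943479
  | 8 => 4325089
  | 9 => 4520250
  | 10 => 4630153
  | 11 => 4696653
  | 12 => 4739241
  | 13 => 4767785
  | 14 => 4787640
  | 15 => 4801885
  | 16 => 4812374
  | 17 => 4820271
  | 18 => 4826332
  | 19 => 4831062
  | 20 => 4834808
  | 21 => 4837814
  | 22 => 4840254
  | 23 => 4842256
  | 24 => 4843914
  | 25 => 4845299
  | 26 => 4846465
  | 27 => 4847454
  | 28 => 4848298
  | 29 => 4849023
  | 30 => 4849649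
  | 31 => 4850193
  | 32 => 4850668
  | 33 => 4851084
  | 34 => 4851450
  | 35 => 4851774
  | 36 => 4852061
  | 37 => 4852317
  | 38 => 4852545
  | 39 => 4852750
  | 40 => 4852934
  | _ => 0

/-- rational upper bounds for the constants of `m` points on a circle -/
noncomputable def cT (m : ℕ) : ℝ := (cN m : ℝ) / 10 ^ 6

/-- the universal products -/
noncomputable def uT (m : ℕ) : ℝ := (uN m : ℝ) / 10 ^ 6

/-- admissible squares `tT (k + 2)` : `ST_PH k lam τ` holds when `τ ^ 2 * ((k + 2) ^ 2 - lam)` is below -/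
noncomputable def tT (n : ℕ) : ℝ :=
  ((n : ℝ) ^ 2 - cT n ^ 2) * uT (n + 1) * (40 ^ 2 - 4 * 3.1416 ^ 2) /
    (uT 40 * (40 ^ 2 - cT 39 ^ 2))

theorem sin_upper3 {x u : ℝ} (h0 : 0 ≤ x) (hxu : x ≤ u) (hu : u ≤ 1) :
    Real.sin x ≤ 3 * (u / 3 - (u / 3) ^ 3 / 6 + (u / 3) ^ 4 * (5 / 96)) -
      4 * (u / 3 - (u / 3) ^ 3 / 6 + (u / 3) ^ 4 * (5 / 96)) ^ 3 := by
  have hu0 : 0 ≤ u := h0.trans hxu
  have hpi := Real.pi_gt_three
  have h1 := sin_upper (x := x / 3) (u := u / 3) (by linarith) (by linarith) (by linarith)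
  set w := u / 3 - (u / 3) ^ 3 / 6 + (u / 3) ^ 4 * (5 / 96) with hw
  have h2 : Real.sin x = 3 * Real.sin (x / 3) - 4 * Real.sin (x / 3) ^ 3 := by
    rw [← Real.sin_three_mul]; congr 1; ring
  have h3 : 0 ≤ Real.sin (x / 3) := Real.sin_nonneg_of_nonneg_of_le_pi (by linarith) (by linarith)
  have h4 : w ≤ 1 / 2 := by
    have e0 : 0 ≤ u / 3 := by linarith
    have e1 : (u / 3) ^ 4 ≤ (u / 3) ^ 3 := pow_le_pow_of_le_one e0 (by linarith) (by norm_num)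
    have e2 : 0 ≤ (u / 3) ^ 3 := by positivity
    rw [hw]; linarith
  rw [h2]
  set s := Real.sin (x / 3)
  have h5 : 0 ≤ (w - s) * (3 - 4 * (w ^ 2 + w * s + s ^ 2)) := by
    refine mul_nonneg (by linarith) ?_
    nlinarith
  nlinarith

theorem cT_facts : (∀ m, 4 ≤ m → m < 40 → 0 < cT m ∧ cT m < m) ∧
    (∀ m, 5 ≤ m → m < 40 → cT (m - 1) ≤ cT m) ∧
    (∀ m, 5 ≤ m → m < 40 → 0 < uT m ∧ uT m * ((m : ℝ) ^ 2 - cT (m - 1) ^ 2) ≤
      uT (m + 1) * ((m : ℝ) ^ 2 - cT m ^ 2)) := by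
  refine ⟨?_, ?_, ?_⟩
  · intro m h1 h2
    interval_cases m <;> norm_num [cT, cN]
  · intro m h1 h2
    interval_cases m <;> norm_num [cT, cN]
  · intro m h1 h2
    interval_cases m <;> norm_num [cT, cN, uT, uN]

variable {A S : Set E2} {x : E2} {r : ℝ}

theorem circle_save (L : LocAdm A S x r) (hA : IsClosed A) (m : ℕ) (hm : 4 ≤ m) (hM : m < 40)
    (ρ : ℝ) (h0 : 0 < ρ) (hρ : ρ < r) (hcard : (S ∩ sphere x ρ).encard = m) :
    len S x ρ ≤ cT m * ρ := by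
  rcases Nat.lt_or_ge m 6 with h6 | h6
  · have := plane_save L hA m hm (by omega) ρ h0 hρ hcard
    refine this.trans (mul_le_mul_of_nonneg_right ?_ h0.le)
    interval_cases m <;> norm_num [sg, cT, cN]
  · refine (len_polygon L hA h0 hρ (by omega) hcard).trans ?_
    refine mul_le_mul_of_nonneg_right ?_ h0.le
    have hm' : (4 : ℝ) ≤ m := by exact_mod_cast hm
    have hpi := Real.pi_lt_d4
    have hpi0 := Real.pi_pos
    rcases Nat.lt_or_ge m 7 with h7 | h7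
    · have : m = 6 := by omega
      subst this
      have h2 : Real.sin (π / (6 : ℕ)) = 1 / 2 := by
        push_cast; exact Real.sin_pi_div_six
      rw [h2]
      norm_num [cT, cN]
    · have h1 := sin_upper3 (x := π / m) (u := 3.1416 / m) (by positivity) (by gcongr)
        (by rw [div_le_one (by linarith)]; linarith)
      interval_cases m <;> norm_num [cT, cN] at h1 ⊢ <;> linarith

/-- the abstract phase argument -/
theorem phase_sq (L : LocAdm A S x r) (k M : ℕ) (q l c : ℕ → ℝ)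
    (GI : ∀ (a b : ℝ), 0 ≤ a → a ≤ b → b < r → ∀ m : ℕ,
      (∀ ρ ∈ Ioo a b, (m : ℕ∞) ≤ (S ∩ sphere x ρ).encard) →
      len S x a ^ 2 + (m : ℝ) ^ 2 * (b ^ 2 - a ^ 2) ≤ len S x b ^ 2)
    (hc : ∀ m : ℕ, k ≤ m → m < M → ∀ ρ, 0 < ρ → ρ < r → (S ∩ sphere x ρ).encard = m →
      len S x ρ ≤ c m * ρ)
    (hc0 : ∀ m : ℕ, k ≤ m → m < M → 0 < c m ∧ c m < m)
    (hq1 : q k = 1) (hq : ∀ m, k ≤ m → m < M → q m ≤ q (m + 1))
    (hrec : ∀ m : ℕ, k ≤ m → m < M → (m : ℝ) ^ 2 * q m - l m ≤ q (m + 1) * ((m : ℝ) ^ 2 - c m ^ 2))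
    (hl : ∀ m, k ≤ m → m < M → l (m + 1) ≤ c m ^ 2 * q (m + 1))
    {a : ℝ} (ha0 : 0 < a) (har : a < r) (hla : l k * a ^ 2 ≤ len S x a ^ 2)
    (hcount : ∀ ρ ∈ Ioo a r, (k : ℕ∞) ≤ (S ∩ sphere x ρ).encard) (j : ℕ) (hj : k + j ≤ M) :
    1 ≤ q (k + j) ∧
    (∀ ρ, 0 < ρ → ρ < r → q (k + j) * a ^ 2 < ρ ^ 2 →
      ((k + j : ℕ) : ℕ∞) ≤ (S ∩ sphere x ρ).encard) ∧
    (∀ ρ, 0 < ρ → ρ < r → q (k + j) * a ^ 2 ≤ ρ ^ 2 →
      l (k + j) * a ^ 2 + ((k + j : ℕ) : ℝ) ^ 2 * (ρ ^ 2 - q (k + j) * a ^ 2) ≤ len S x ρ ^ 2) := by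
  induction j with
  | zero =>
    simp only [add_zero, hq1, one_mul]
    refine ⟨le_rfl, ?_, ?_⟩
    · intro ρ h0 h1 h2
      exact hcount ρ ⟨lt_of_pow_lt_pow_left₀ 2 h0.le h2, h1⟩
    · intro ρ h0 h1 h2
      have h3 : a ≤ ρ := le_of_sq_le_sq h2 h0.le
      have h4 := GI a ρ ha0.le h3 h1 k (fun s hs => hcount s ⟨hs.1, hs.2.trans h1⟩)
      linarith
  | succ j ih =>
    obtain ⟨i1, i2, i3⟩ := ih (by omega)
    have hk1 : k ≤ k + j := by omega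
    have hk2 : k + j < M := by omega
    obtain ⟨c1, c2⟩ := hc0 (k + j) hk1 hk2
    have q1 := hq (k + j) hk1 hk2
    have r1 := hrec (k + j) hk1 hk2
    have l1 := hl (k + j) hk1 hk2
    have s1 := hc (k + j) hk1 hk2
    rw [show k + (j + 1) = k + j + 1 by ring]
    set m := k + j with hm
    have hm0 : (0 : ℝ) < m := c1.trans c2
    have ha2 : 0 < a ^ 2 := by positivity
    have hq1' : 1 ≤ q (m + 1) := i1.trans q1
    have hcm : c m ^ 2 < (m : ℝ) ^ 2 := by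
      exact pow_lt_pow_left₀ c2 c1.le (by norm_num)
    -- the number of points
    have hcnt : ∀ ρ, 0 < ρ → ρ < r → q (m + 1) * a ^ 2 < ρ ^ 2 →
        ((m + 1 : ℕ) : ℕ∞) ≤ (S ∩ sphere x ρ).encard := by
      intro ρ h0 h1 h2
      have hqa : q m * a ^ 2 ≤ q (m + 1) * a ^ 2 := mul_le_mul_of_nonneg_right q1 ha2.le
      have h3 := i2 ρ h0 h1 (lt_of_le_of_lt hqa h2)
      have h4 := i3 ρ h0 h1 (hqa.trans h2.le)
      have h5 : (S ∩ sphere x ρ).encard ≠ (m : ℕ∞) := by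
        intro h
        have h6 := s1 ρ h0 h1 h
        have h7 : len S x ρ ^ 2 ≤ (c m * ρ) ^ 2 := pow_le_pow_left₀ (len_nonneg S x ρ) h6 2
        have h8 : (m : ℝ) ^ 2 * (q m * a ^ 2) - l m * a ^ 2 ≤
            q (m + 1) * a ^ 2 * ((m : ℝ) ^ 2 - c m ^ 2) := by
          nlinarith
        have h9 : q (m + 1) * a ^ 2 * ((m : ℝ) ^ 2 - c m ^ 2) <
            ρ ^ 2 * ((m : ℝ) ^ 2 - c m ^ 2) :=
          mul_lt_mul_of_pos_right h2 (by linarith)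
        nlinarith
      have h6 := lt_of_le_of_ne h3 (Ne.symm h5)
      have := Order.add_one_le_of_lt h6
      exact_mod_cast this
    refine ⟨hq1', hcnt, ?_⟩
    intro ρ h0 h1 h2
    set s := √(q (m + 1)) * a with hs
    have hs0 : 0 < s := mul_pos (Real.sqrt_pos.2 (by linarith)) ha0
    have hs2 : s ^ 2 = q (m + 1) * a ^ 2 := by
      rw [hs, mul_pow, Real.sq_sqrt (by linarith)]
    have hsρ : s ≤ ρ := le_of_sq_le_sq (by rw [hs2]; exact h2) h0.le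
    have hsr : s < r := lt_of_le_of_lt hsρ h1
    have hqa : q m * a ^ 2 ≤ s ^ 2 := by
      rw [hs2]; exact mul_le_mul_of_nonneg_right q1 ha2.le
    have h4 := i3 s hs0 hsr hqa
    have h5 := GI s ρ hs0.le hsρ h1 (m + 1) (fun t ht => hcnt t (hs0.trans ht.1) (ht.2.trans h1) (by
      rw [← hs2]
      exact pow_lt_pow_left₀ ht.1 hs0.le (by norm_num)))
    rw [hs2] at h4 h5
    push_cast at h5 ⊢
    have h8 : (m : ℝ) ^ 2 * (q m * a ^ 2) - l m * a ^ 2 ≤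
        q (m + 1) * a ^ 2 * ((m : ℝ) ^ 2 - c m ^ 2) := by
      nlinarith
    have h9 : l (m + 1) * a ^ 2 ≤ c m ^ 2 * q (m + 1) * a ^ 2 :=
      mul_le_mul_of_nonneg_right l1 ha2.le
    nlinarith

/-- the final step -/
theorem phase_end (L : LocAdm A S x r) (hA : IsClosed A) {M : ℕ} (hM : 7 ≤ M) {Q l a τ : ℝ}
    (ha0 : 0 < a) (hQ : 1 ≤ Q) (hτ : 0 < τ)
    (h1 : ∀ ρ, 0 < ρ → ρ < r → Q * a ^ 2 < ρ ^ 2 → (M : ℕ∞) ≤ (S ∩ sphere x ρ).encard)
    (h2 : ∀ ρ, 0 < ρ → ρ < r → Q * a ^ 2 ≤ ρ ^ 2 →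
      l * a ^ 2 + (M : ℝ) ^ 2 * (ρ ^ 2 - Q * a ^ 2) ≤ len S x ρ ^ 2)
    (hlQ : l ≤ 4 * 3.1416 ^ 2 * Q)
    (hT : τ ^ 2 * ((M : ℝ) ^ 2 * Q - l) < (M : ℝ) ^ 2 - 4 * 3.1416 ^ 2) :
    τ * r < a := by
  by_contra hcon
  push Not at hcon
  have hr := L.rpos
  have hM' : (7 : ℝ) ≤ M := by exact_mod_cast hM
  have hM2 : (49 : ℝ) ≤ (M : ℝ) ^ 2 := by nlinarith
  have hpi := Real.pi_lt_d4
  have hpi0 := Real.pi_pos
  have hp2 : π ^ 2 ≤ 3.1416 ^ 2 := pow_le_pow_left₀ hpi0.le hpi.le 2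
  set G : ℝ := (M : ℝ) ^ 2 - 4 * 3.1416 ^ 2 with hG
  have hG0 : 0 < G := by rw [hG]; norm_num; linarith
  have ha2 : 0 < a ^ 2 := by positivity
  have haτ : a ^ 2 ≤ τ ^ 2 * r ^ 2 := by
    rw [← mul_pow]
    exact pow_le_pow_left₀ ha0.le hcon 2
  have hr2 : 0 < r ^ 2 := by positivity
  have hK : G * Q ≤ (M : ℝ) ^ 2 * Q - l := by rw [hG]; nlinarith
  have hK0 : 0 < (M : ℝ) ^ 2 * Q - l := lt_of_lt_of_le (by positivity) hK
  -- both bounds for a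
  have e1 : ((M : ℝ) ^ 2 * Q - l) * a ^ 2 < G * r ^ 2 := by
    calc ((M : ℝ) ^ 2 * Q - l) * a ^ 2 ≤ ((M : ℝ) ^ 2 * Q - l) * (τ ^ 2 * r ^ 2) :=
          mul_le_mul_of_nonneg_left haτ hK0.le
      _ = (τ ^ 2 * ((M : ℝ) ^ 2 * Q - l)) * r ^ 2 := by ring
      _ < G * r ^ 2 := mul_lt_mul_of_pos_right hT hr2
  set s := √(((M : ℝ) ^ 2 * Q - l) / G) * a with hs
  have hs0 : 0 < s := mul_pos (Real.sqrt_pos.2 (div_pos hK0 hG0)) ha0
  have hs2 : G * s ^ 2 = ((M : ℝ) ^ 2 * Q - l) * a ^ 2 := by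
    rw [hs, mul_pow, Real.sq_sqrt (div_pos hK0 hG0).le]
    field_simp
  have hsr : s < r := by
    refine lt_of_pow_lt_pow_left₀ 2 hr.le ?_
    have : G * s ^ 2 < G * r ^ 2 := by rw [hs2]; exact e1
    exact lt_of_mul_lt_mul_left this hG0.le
  obtain ⟨ρ, hρ1, hρ2⟩ := exists_between hsr
  have hρ0 : 0 < ρ := hs0.trans hρ1
  have hρs : s ^ 2 < ρ ^ 2 := pow_lt_pow_left₀ hρ1 hs0.le (by norm_num)
  have hQs : Q * a ^ 2 ≤ s ^ 2 := by
    have : G * (Q * a ^ 2) ≤ G * s ^ 2 := by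
      rw [hs2, ← mul_assoc]
      exact mul_le_mul_of_nonneg_right hK ha2.le
    exact le_of_mul_le_mul_left this hG0
  have h3 := h1 ρ hρ0 hρ2 (lt_of_le_of_lt hQs hρs)
  have h4 := h2 ρ hρ0 hρ2 (hQs.trans hρs.le)
  have hne : (S ∩ sphere x ρ).Nonempty := by
    rw [← Set.encard_pos]
    refine lt_of_lt_of_le ?_ h3
    exact_mod_cast (by omega : 0 < M)
  have h5 := len_circle L hA hρ0 hρ2 hne
  have h6 : len S x ρ ^ 2 ≤ (2 * π * ρ) ^ 2 := pow_le_pow_left₀ (len_nonneg S x ρ) h5 2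
  have h7 : (2 * π * ρ) ^ 2 ≤ 4 * 3.1416 ^ 2 * ρ ^ 2 := by
    have := mul_le_mul_of_nonneg_right hp2 (sq_nonneg ρ)
    nlinarith
  have h8 : G * s ^ 2 < G * ρ ^ 2 := mul_lt_mul_of_pos_left hρs hG0
  rw [hs2] at h8
  rw [hG] at h8
  nlinarith

theorem uT_mono : ∀ m, 5 ≤ m → m < 40 → uT m ≤ uT (m + 1) := by
  intro m h1 h2
  obtain ⟨c1, c2, c3⟩ := cT_facts
  obtain ⟨d1, d2⟩ := c1 m (by omega) h2
  obtain ⟨d3, d4⟩ := c3 m h1 h2
  have d5 := c2 m h1 h2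
  have d6 : 0 < cT (m - 1) := (c1 (m - 1) (by omega) (by omega)).1
  have d7 : cT (m - 1) ^ 2 ≤ cT m ^ 2 := pow_le_pow_left₀ d6.le d5 2
  have d8 : cT m ^ 2 < (m : ℝ) ^ 2 := pow_lt_pow_left₀ d2 d1.le (by norm_num)
  have d9 : uT m * ((m : ℝ) ^ 2 - cT m ^ 2) ≤ uT (m + 1) * ((m : ℝ) ^ 2 - cT m ^ 2) := by
    refine le_trans ?_ d4
    exact mul_le_mul_of_nonneg_left (by linarith) d3.le
  exact le_of_mul_le_mul_right d9 (by linarith)

/-- **ST_PH** for all admissible numbers: `2 ≤ k ≤ 36`, `lam ≤ c_{k+2} ^ 2`,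
`τ ^ 2 ((k + 2) ^ 2 - lam) < tT (k + 2)`. -/
theorem ph_all (k : ℕ) (hk : 2 ≤ k) (hk' : k ≤ 36) (lam τ : ℝ) (hτ : 0 < τ)
    (hlam : lam ≤ cT (k + 2) ^ 2) (h : τ ^ 2 * (((k + 2 : ℕ) : ℝ) ^ 2 - lam) < tT (k + 2)) :
    ST_PH k lam τ := by
  intro A S x r L hA GI a ha0 har hla hcount
  obtain ⟨c1, c2, c3⟩ := cT_facts
  set n := k + 2 with hn
  have hn4 : 4 ≤ n := by omega
  have hn38 : n ≤ 38 := by omega
  obtain ⟨d1, d2⟩ := c1 n hn4 (by omega)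
  have d8 : cT n ^ 2 < (n : ℝ) ^ 2 := pow_lt_pow_left₀ d2 d1.le (by norm_num)
  have hu : 0 < uT (n + 1) := by
    rcases Nat.lt_or_ge (n + 1) 40 with h1 | h1
    · exact (c3 (n + 1) (by omega) h1).1
    · omega
  set b : ℝ := ((n : ℝ) ^ 2 - lam) / ((n : ℝ) ^ 2 - cT n ^ 2) with hb
  have hb1 : 1 ≤ b := by
    rw [hb, one_le_div (by linarith)]; linarith
  have hbe : b * ((n : ℝ) ^ 2 - cT n ^ 2) = (n : ℝ) ^ 2 - lam := by
    rw [hb]; field_simp [(by linarith : (n : ℝ) ^ 2 - cT n ^ 2 ≠ 0)]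
  -- the sequences
  set q : ℕ → ℝ := fun m => if m = n then 1 else b * uT m / uT (n + 1) with hq
  set l : ℕ → ℝ := fun m => if m = n then lam else cT (m - 1) ^ 2 * (b * uT m / uT (n + 1)) with hl
  have q0 : q n = 1 := by simp [hq]
  have l0 : l n = lam := by simp [hl]
  have q1 : ∀ m, n < m → q m = b * uT m / uT (n + 1) := by
    intro m hm; simp only [hq]; rw [if_neg (by omega)]
  have l1 : ∀ m, n < m → l m = cT (m - 1) ^ 2 * (b * uT m / uT (n + 1)) := by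
    intro m hm; simp only [hl]; rw [if_neg (by omega)]
  have q2 : q (n + 1) = b := by
    rw [q1 _ (by omega)]; field_simp
  have hb0 : 0 < b := by linarith
  obtain ⟨e1, e2, e3⟩ := phase_sq L n 40 q l cT GI
    (fun m hm hM ρ h0 h1 hc => circle_save L hA m (by omega) hM ρ h0 h1 hc)
    (fun m hm hM => c1 m (by omega) hM) q0
    (by
      intro m hm hM
      rcases Nat.eq_or_lt_of_le hm with h1 | h1
      · rw [← h1, q0, q2]; exact hb1
      · rw [q1 m h1, q1 (m + 1) (by omega)]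
        have := uT_mono m (by omega) hM
        gcongr)
    (by
      intro m hm hM
      rcases Nat.eq_or_lt_of_le hm with h1 | h1
      · rw [← h1, q0, q2, l0, hbe]; linarith
      · rw [q1 m h1, q1 (m + 1) (by omega), l1 m h1]
        have h2 := (c3 m (by omega) hM).2
        have h3 : 0 < b / uT (n + 1) := div_pos hb0 hu
        have h4 := mul_le_mul_of_nonneg_left h2 h3.le
        calc (m : ℝ) ^ 2 * (b * uT m / uT (n + 1)) - cT (m - 1) ^ 2 * (b * uT m / uT (n + 1))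
            = b / uT (n + 1) * (uT m * ((m : ℝ) ^ 2 - cT (m - 1) ^ 2)) := by ring
          _ ≤ _ := h4
          _ = _ := by ring)
    (by
      intro m hm hM
      rw [l1 (m + 1) (by omega), q1 (m + 1) (by omega)]
      simp)
    ha0 har (by rw [l0]; exact hla) hcount (40 - n) (by omega)
  have h40 : n + (40 - n) = 40 := by omega
  rw [h40] at e1 e2 e3
  have hq40 : q 40 = b * uT 40 / uT (n + 1) := q1 40 (by omega)
  have hl40 : l 40 = cT 39 ^ 2 * q 40 := by rw [l1 40 (by omega), hq40]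
  have hc39 : cT 39 ^ 2 ≤ 4 * 3.1416 ^ 2 := by norm_num [cT, cN]
  refine phase_end L hA (M := 40) (by norm_num) ha0 e1 hτ e2 e3 ?_ ?_
  · rw [hl40]
    exact mul_le_mul_of_nonneg_right hc39 (by linarith)
  · rw [hl40, hq40]
    have hu40 : 0 < uT 40 := by norm_num [uT, uN]
    have hc39' : (0 : ℝ) < 40 ^ 2 - cT 39 ^ 2 := by norm_num [cT, cN]
    rw [tT, lt_div_iff₀ (by positivity)] at h
    have h5 : (0 : ℝ) < (n : ℝ) ^ 2 - cT n ^ 2 := by linarith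
    rw [← hbe] at h
    have h6 : τ ^ 2 * (b * (uT 40 * (40 ^ 2 - cT 39 ^ 2))) <
        uT (n + 1) * (40 ^ 2 - 4 * 3.1416 ^ 2) := by
      have : ((n : ℝ) ^ 2 - cT n ^ 2) * (τ ^ 2 * (b * (uT 40 * (40 ^ 2 - cT 39 ^ 2)))) <
          ((n : ℝ) ^ 2 - cT n ^ 2) * (uT (n + 1) * (40 ^ 2 - 4 * 3.1416 ^ 2)) := by
        calc _ = τ ^ 2 * (b * ((n : ℝ) ^ 2 - cT n ^ 2)) * (uT 40 * (40 ^ 2 - cT 39 ^ 2)) := by ring
          _ < _ := h
          _ = _ := by ring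
      exact lt_of_mul_lt_mul_left this h5.le
    push_cast
    calc τ ^ 2 * (40 ^ 2 * (b * uT 40 / uT (n + 1)) - cT 39 ^ 2 * (b * uT 40 / uT (n + 1)))
        = τ ^ 2 * (b * (uT 40 * (40 ^ 2 - cT 39 ^ 2))) / uT (n + 1) := by ring
      _ < _ := by
        rw [div_lt_iff₀ hu]
        calc _ < _ := h6
          _ = _ := by ring

/-! ### the numbers -/

theorem tT_vals : 0.22008 < tT 4 ∧ 2.0721 < tT 5 ∧ 8.9266 < tT 6 ∧ 19.476 < tT 7 ∧
    32.827 < tT 8 ∧ 48.640 < tT 9 := by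
  refine ⟨?_, ?_, ?_, ?_, ?_, ?_⟩ <;> norm_num [tT, cT, cN, uT, uN]

theorem ph_2a : ST_PH 2 (3 / 4) (1201 / 10000) :=
  ph_all 2 (by norm_num) (by norm_num) _ _ (by norm_num) (by norm_num [cT, cN])
    (lt_trans (by norm_num) tT_vals.1)

theorem ph_2b : ST_PH 2 3 (1301 / 10000) :=
  ph_all 2 (by norm_num) (by norm_num) _ _ (by norm_num) (by norm_num [cT, cN])
    (lt_trans (by norm_num) tT_vals.1)

theorem ph_3a : ST_PH 3 (3 / 4) (2923 / 10000) :=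
  ph_all 3 (by norm_num) (by norm_num) _ _ (by norm_num) (by norm_num [cT, cN])
    (lt_trans (by norm_num) tT_vals.2.1)

theorem ph_3b : ST_PH 3 (34 / 10) (3097 / 10000) :=
  ph_all 3 (by norm_num) (by norm_num) _ _ (by norm_num) (by norm_num [cT, cN])
    (lt_trans (by norm_num) tT_vals.2.1)

theorem ph_4a : ST_PH 4 (3 / 4) (5032 / 10000) :=
  ph_all 4 (by norm_num) (by norm_num) _ _ (by norm_num) (by norm_num [cT, cN])
    (lt_trans (by norm_num) tT_vals.2.2.1)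

theorem ph_5a : ST_PH 5 (3 / 4) (6353 / 10000) :=
  ph_all 5 (by norm_num) (by norm_num) _ _ (by norm_num) (by norm_num [cT, cN])
    (lt_trans (by norm_num) tT_vals.2.2.2.1)

theorem ph_6a : ST_PH 6 (3 / 4) (7204 / 10000) :=
  ph_all 6 (by norm_num) (by norm_num) _ _ (by norm_num) (by norm_num [cT, cN])
    (lt_trans (by norm_num) tT_vals.2.2.2.2.1)

theorem ph_7a : ST_PH 7 (3 / 4) (7785 / 10000) :=
  ph_all 7 (by norm_num) (by norm_num) _ _ (by norm_num) (by norm_num [cT, cN])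
    (lt_trans (by norm_num) tT_vals.2.2.2.2.2)

end H11ST.Ph
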