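import Pool.Agent.H11ST.St3
open MeasureTheory Metric Set Filter Topology Real
open scoped ENNReal NNReal

/-! # The triangular pattern on the unit sphere (`ST_PAT`) -/

namespace H11ST.Pat

/-- lattice coordinates -/
noncomputable def U {m : ℕ} (s X Y : ℝ) (Z : Fin m → ℝ) : EuclideanSpace ℝ (Fin (m + 2)) :=
  WithLp.toLp 2 (Fin.cons (s * (X + Y / 2)) (Fin.cons (s * (Y * (√3 / 2))) (fun i => s * Z i)))

theorem U_dist {m : ℕ} (s X Y X' Y' : ℝ) (Z Z' : Fin m → ℝ) :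
    dist (U s X Y Z) (U s X' Y' Z') ^ 2 =
      s ^ 2 * ((X - X') ^ 2 + (X - X') * (Y - Y') + (Y - Y') ^ 2 + ∑ i, (Z i - Z' i) ^ 2) := by
  have h3 : √3 ^ 2 = 3 := Real.sq_sqrt (by norm_num)
  rw [EuclideanSpace.dist_eq, Real.sq_sqrt (by positivity), Fin.sum_univ_succ, Fin.sum_univ_succ]
  simp only [U, Real.dist_eq, sq_abs, Fin.cons_zero, Fin.cons_succ]
  have : ∑ i, (s * Z i - s * Z' i) ^ 2 = s ^ 2 * ∑ i, (Z i - Z' i) ^ 2 := by
    rw [Finset.mul_sum]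
    exact Finset.sum_congr rfl fun i _ => by ring
  rw [this]
  nlinarith [h3]

theorem U_zero {m : ℕ} (s : ℝ) : U s 0 0 (fun _ : Fin m => 0) = 0 := by
  ext i
  refine Fin.cases ?_ (fun i => ?_) i
  · simp [U]
  · refine Fin.cases ?_ (fun i => ?_) i
    · simp [U]
    · simp [U]

theorem U_norm {m : ℕ} (s X Y : ℝ) (Z : Fin m → ℝ) :
    ‖U s X Y Z‖ ^ 2 = s ^ 2 * (X ^ 2 + X * Y + Y ^ 2 + ∑ i, Z i ^ 2) := by
  have h := U_dist s X Y 0 0 Z (fun _ => 0)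
  rw [U_zero, dist_zero_right] at h
  simpa using h

/-- lift to the sphere -/
noncomputable def psi {N : ℕ} (u : EuclideanSpace ℝ (Fin N)) : EuclideanSpace ℝ (Fin (N + 1)) :=
  WithLp.toLp 2 (Fin.cons (√(1 - ‖u‖ ^ 2)) (fun i => u i))

theorem psi_norm {N : ℕ} (u : EuclideanSpace ℝ (Fin N)) (hu : ‖u‖ ≤ 1) : ‖psi u‖ = 1 := by
  have h1 : ‖psi u‖ ^ 2 = 1 := by
    rw [EuclideanSpace.norm_sq_eq, Fin.sum_univ_succ]
    simp only [psi, Fin.cons_zero, Fin.cons_succ, Real.norm_eq_abs, sq_abs]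
    rw [Real.sq_sqrt (by nlinarith [norm_nonneg u])]
    have : ∑ i, u i ^ 2 = ‖u‖ ^ 2 := by
      rw [EuclideanSpace.norm_sq_eq]; simp
    linarith
  nlinarith [norm_nonneg (psi u)]

theorem psi_dist {N : ℕ} (u v : EuclideanSpace ℝ (Fin N)) :
    dist (psi u) (psi v) ^ 2 = (√(1 - ‖u‖ ^ 2) - √(1 - ‖v‖ ^ 2)) ^ 2 + dist u v ^ 2 := by
  rw [EuclideanSpace.dist_eq, Real.sq_sqrt (by positivity), Fin.sum_univ_succ,
    EuclideanSpace.dist_eq u v, Real.sq_sqrt (by positivity)]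
  simp only [psi, Real.dist_eq, sq_abs, Fin.cons_zero, Fin.cons_succ]

theorem psi_lower {N : ℕ} (u v : EuclideanSpace ℝ (Fin N)) : dist u v ≤ dist (psi u) (psi v) := by
  have h := psi_dist u v
  refine le_of_sq_le_sq ?_ dist_nonneg
  rw [h]; nlinarith [sq_nonneg (√(1 - ‖u‖ ^ 2) - √(1 - ‖v‖ ^ 2))]

theorem psi_upper {N : ℕ} (u v : EuclideanSpace ℝ (Fin N)) (hu : ‖u‖ ≤ 1 / 10) (hv : ‖v‖ ≤ 1 / 10) :
    dist (psi u) (psi v) ≤ 1.006 * dist u v := by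
  have h := psi_dist u v
  refine le_of_sq_le_sq ?_ (by positivity)
  rw [h, mul_pow]
  have hu0 := norm_nonneg u
  have hv0 := norm_nonneg v
  have a1 : ‖u‖ ^ 2 ≤ 1 / 100 := by nlinarith
  have a2 : ‖v‖ ^ 2 ≤ 1 / 100 := by nlinarith
  set p := √(1 - ‖u‖ ^ 2) with hp
  set q := √(1 - ‖v‖ ^ 2) with hq
  have p1 : p ^ 2 = 1 - ‖u‖ ^ 2 := Real.sq_sqrt (by linarith)
  have q1 : q ^ 2 = 1 - ‖v‖ ^ 2 := Real.sq_sqrt (by linarith)
  have p2 : 0.99 ≤ p := by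
    rw [hp]; apply Real.le_sqrt_of_sq_le; norm_num; linarith
  have q2 : 0.99 ≤ q := by
    rw [hq]; apply Real.le_sqrt_of_sq_le; norm_num; linarith
  have e1 : (p - q) * (p + q) = ‖v‖ ^ 2 - ‖u‖ ^ 2 := by nlinarith
  have e2 : (p - q) ^ 2 * (p + q) ^ 2 = (‖v‖ - ‖u‖) ^ 2 * (‖v‖ + ‖u‖) ^ 2 := by
    rw [← mul_pow, ← mul_pow, e1]; ring
  have e3 : (‖v‖ + ‖u‖) ^ 2 ≤ 0.04 := by nlinarith
  have e4 : 3.92 ≤ (p + q) ^ 2 := by nlinarith
  have e5 : (‖v‖ - ‖u‖) ^ 2 ≤ dist u v ^ 2 := by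
    have h1 := abs_norm_sub_norm_le v u
    rw [← dist_eq_norm, dist_comm] at h1
    rw [← sq_abs (‖v‖ - ‖u‖)]
    exact pow_le_pow_left₀ (abs_nonneg _) h1 2
  have e6 : (p - q) ^ 2 * 3.92 ≤ dist u v ^ 2 * 0.04 := by
    calc (p - q) ^ 2 * 3.92 ≤ (p - q) ^ 2 * (p + q) ^ 2 :=
          mul_le_mul_of_nonneg_left e4 (sq_nonneg _)
      _ = (‖v‖ - ‖u‖) ^ 2 * (‖v‖ + ‖u‖) ^ 2 := e2
      _ ≤ (‖v‖ - ‖u‖) ^ 2 * 0.04 := mul_le_mul_of_nonneg_left e3 (sq_nonneg _)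
      _ ≤ _ := mul_le_mul_of_nonneg_right e5 (by norm_num)
  nlinarith

/-- the index set -/
abbrev Idx (m K : ℕ) : Type := Fin K × Fin K × (Fin m → Fin K)

variable {m K : ℕ}

/-- the base point of the cell `g`, shifted -/
noncomputable def up (s : ℝ) (g : Idx m K) (x y : ℝ) : EuclideanSpace ℝ (Fin (m + 2)) :=
  U s (2 * (g.1 : ℕ) + x) (2 * (g.2.1 : ℕ) + y) (fun i => ((g.2.2 i : ℕ) : ℝ))

noncomputable def tx (j : Fin 3) : ℕ := if j = 1 then 1 else 0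
noncomputable def ty (j : Fin 3) : ℕ := if j = 2 then 1 else 0

theorem up_norm {s c : ℝ} (hK : 1 ≤ K) (hs : s = c / K) (hc : c = 1 / (100 * (m + 12)))
    (g : Idx m K) {x y : ℝ} (hx0 : 0 ≤ x) (hx : x ≤ 1) (hy0 : 0 ≤ y) (hy : y ≤ 1) :
    ‖up s g x y‖ ≤ 1 / 10 := by
  have hK' : (1 : ℝ) ≤ K := by exact_mod_cast hK
  have hm : (0 : ℝ) ≤ m := Nat.cast_nonneg m
  have hb : ∀ a : Fin K, ((a : ℕ) : ℝ) + 1 ≤ K := by
    intro a; exact_mod_cast a.2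
  have hb0 : ∀ a : Fin K, (0 : ℝ) ≤ ((a : ℕ) : ℝ) := fun a => Nat.cast_nonneg _
  have h1 := U_norm s (2 * (g.1 : ℕ) + x) (2 * (g.2.1 : ℕ) + y) (fun i => ((g.2.2 i : ℕ) : ℝ))
  have h2 : ∑ i, ((g.2.2 i : ℕ) : ℝ) ^ 2 ≤ m * K ^ 2 := by
    calc ∑ i, ((g.2.2 i : ℕ) : ℝ) ^ 2 ≤ ∑ _i : Fin m, (K : ℝ) ^ 2 :=
          Finset.sum_le_sum fun i _ => pow_le_pow_left₀ (hb0 _) (by linarith [hb (g.2.2 i)]) 2
      _ = m * K ^ 2 := by simp
  have hX : 2 * ((g.1 : ℕ) : ℝ) + x ≤ 2 * K := by linarith [hb g.1]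
  have hY : 2 * ((g.2.1 : ℕ) : ℝ) + y ≤ 2 * K := by linarith [hb g.2.1]
  have hX0 : 0 ≤ 2 * ((g.1 : ℕ) : ℝ) + x := by linarith [hb0 g.1]
  have hY0 : 0 ≤ 2 * ((g.2.1 : ℕ) : ℝ) + y := by linarith [hb0 g.2.1]
  set X := 2 * ((g.1 : ℕ) : ℝ) + x
  set Y := 2 * ((g.2.1 : ℕ) : ℝ) + y
  have h3 : X ^ 2 + X * Y + Y ^ 2 ≤ 12 * K ^ 2 := by nlinarith
  have h4 : ‖up s g x y‖ ^ 2 ≤ s ^ 2 * ((m + 12) * K ^ 2) := by
    rw [show ‖up s g x y‖ ^ 2 = s ^ 2 * (X ^ 2 + X * Y + Y ^ 2 + ∑ i, ((g.2.2 i : ℕ) : ℝ) ^ 2)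
      from h1]
    refine mul_le_mul_of_nonneg_left ?_ (sq_nonneg s)
    nlinarith
  have h5 : s ^ 2 * ((m + 12) * K ^ 2) = c ^ 2 * (m + 12) := by
    rw [hs]; field_simp
  have h6 : c ^ 2 * (m + 12) ≤ (1 / 10) ^ 2 := by
    rw [hc]
    have : (1 / (100 * ((m : ℝ) + 12))) ^ 2 * (m + 12) = 1 / (10000 * (m + 12)) := by
      field_simp; norm_num
    rw [this, div_le_iff₀ (by positivity)]
    nlinarith
  exact le_of_sq_le_sq (by linarith) (by norm_num)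

theorem up_far {s : ℝ} (hs : 0 ≤ s) (g g' : Idx m K) (j j' : Fin 3) (h : (g, j) ≠ (g', j')) :
    s ≤ dist (up s g (tx j) (ty j)) (up s g' (tx j') (ty j')) := by
  refine le_of_sq_le_sq ?_ dist_nonneg
  rw [up, up, U_dist]
  set X : ℤ := (2 * (g.1 : ℕ) + tx j : ℤ) - (2 * (g'.1 : ℕ) + tx j') with hX
  set Y : ℤ := (2 * (g.2.1 : ℕ) + ty j : ℤ) - (2 * (g'.2.1 : ℕ) + ty j') with hY
  set Q : ℤ := X ^ 2 + X * Y + Y ^ 2 + ∑ i, (((g.2.2 i : ℕ) : ℤ) - ((g'.2.2 i : ℕ) : ℤ)) ^ 2 with hQ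
  have h1 : (2 * ((g.1 : ℕ) : ℝ) + tx j - (2 * ((g'.1 : ℕ) : ℝ) + tx j')) ^ 2 +
      (2 * ((g.1 : ℕ) : ℝ) + tx j - (2 * ((g'.1 : ℕ) : ℝ) + tx j')) *
        (2 * ((g.2.1 : ℕ) : ℝ) + ty j - (2 * ((g'.2.1 : ℕ) : ℝ) + ty j')) +
      (2 * ((g.2.1 : ℕ) : ℝ) + ty j - (2 * ((g'.2.1 : ℕ) : ℝ) + ty j')) ^ 2 +
      ∑ i, (((g.2.2 i : ℕ) : ℝ) - ((g'.2.2 i : ℕ) : ℝ)) ^ 2 = (Q : ℝ) := by
    rw [hQ, hX, hY]; push_cast; ring
  rw [h1]
  have h2 : 0 ≤ ∑ i, (((g.2.2 i : ℕ) : ℤ) - ((g'.2.2 i : ℕ) : ℤ)) ^ 2 :=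
    Finset.sum_nonneg fun i _ => sq_nonneg _
  have h3 : (1 : ℤ) ≤ Q := by
    by_contra hcon
    push Not at hcon
    have h4 : 4 * (X ^ 2 + X * Y + Y ^ 2) = (2 * X + Y) ^ 2 + 3 * Y ^ 2 := by ring
    have h5 : 0 ≤ X ^ 2 + X * Y + Y ^ 2 := by nlinarith [sq_nonneg (2 * X + Y), sq_nonneg Y]
    have h6 : X ^ 2 + X * Y + Y ^ 2 = 0 := by omega
    have h7 : ∑ i, (((g.2.2 i : ℕ) : ℤ) - ((g'.2.2 i : ℕ) : ℤ)) ^ 2 = 0 := by omega
    have hY0 : Y = 0 := by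
      have : Y ^ 2 = 0 := by nlinarith [sq_nonneg (2 * X + Y), sq_nonneg Y]
      exact pow_eq_zero_iff (by norm_num) |>.1 this
    have hX0 : X = 0 := by
      rw [hY0] at h6
      have : X ^ 2 = 0 := by linarith
      exact pow_eq_zero_iff (by norm_num) |>.1 this
    have hz : ∀ i, g.2.2 i = g'.2.2 i := by
      intro i
      have := (Finset.sum_eq_zero_iff_of_nonneg (fun i _ => sq_nonneg _)).1 h7 i (Finset.mem_univ i)
      have h8 : ((g.2.2 i : ℕ) : ℤ) - ((g'.2.2 i : ℕ) : ℤ) = 0 :=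
        pow_eq_zero_iff (by norm_num) |>.1 this
      apply Fin.ext; omega
    have hj : (tx j : ℤ) < 2 ∧ (tx j' : ℤ) < 2 ∧ (ty j : ℤ) < 2 ∧ (ty j' : ℤ) < 2 := by
      refine ⟨?_, ?_, ?_, ?_⟩ <;> (simp only [tx, ty]; split_ifs <;> norm_num)
    have a1 : g.1 = g'.1 := by apply Fin.ext; omega
    have a2 : g.2.1 = g'.2.1 := by apply Fin.ext; omega
    have a3 : tx j = tx j' := by omega
    have a4 : ty j = ty j' := by omega
    have a5 : j = j' := by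
      fin_cases j <;> fin_cases j' <;> simp [tx, ty] at a3 a4 ⊢
    exact h (by rw [Prod.ext_iff]; exact ⟨Prod.ext a1 (Prod.ext a2 (funext hz)), a5⟩)
  have h4 : (1 : ℝ) ≤ Q := by exact_mod_cast h3
  nlinarith [sq_nonneg s]

/-- the rank of a cell -/
def rk (g : Idx m K) : ℕ := g.1 + g.2.1 + ∑ i, (g.2.2 i : ℕ)

theorem up_pred {s : ℝ} (hs : 0 ≤ s) (g : Idx m K) (hg : rk g ≠ 0) :
    ∃ (g' : Idx m K) (j : Fin 3), rk g' < rk g ∧
      dist (up s g (tx 0) (ty 0)) (up s g' (tx j) (ty j)) ≤ s := by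
  have key : ∀ (g' : Idx m K) (j : Fin 3),
      (2 * ((g.1 : ℕ) : ℝ) + tx 0 - (2 * ((g'.1 : ℕ) : ℝ) + tx j)) ^ 2 +
      (2 * ((g.1 : ℕ) : ℝ) + tx 0 - (2 * ((g'.1 : ℕ) : ℝ) + tx j)) *
        (2 * ((g.2.1 : ℕ) : ℝ) + ty 0 - (2 * ((g'.2.1 : ℕ) : ℝ) + ty j)) +
      (2 * ((g.2.1 : ℕ) : ℝ) + ty 0 - (2 * ((g'.2.1 : ℕ) : ℝ) + ty j)) ^ 2 +
      ∑ i, (((g.2.2 i : ℕ) : ℝ) - ((g'.2.2 i : ℕ) : ℝ)) ^ 2 ≤ 1 →
      dist (up s g (tx 0) (ty 0)) (up s g' (tx j) (ty j)) ≤ s := by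
    intro g' j h
    refine le_of_sq_le_sq ?_ hs
    rw [up, up, U_dist]
    nlinarith [sq_nonneg s]
  by_cases h1 : (g.1 : ℕ) = 0
  · by_cases h2 : (g.2.1 : ℕ) = 0
    · have h3 : ∑ i, (g.2.2 i : ℕ) ≠ 0 := by
        intro h; exact hg (by rw [rk, h1, h2, h])
      obtain ⟨i, -, hi⟩ := Finset.exists_ne_zero_of_sum_ne_zero h3
      have hlt : (g.2.2 i : ℕ) - 1 < K := lt_of_le_of_lt (Nat.sub_le _ _) (g.2.2 i).2
      refine ⟨(g.1, g.2.1, Function.update g.2.2 i ⟨(g.2.2 i : ℕ) - 1, hlt⟩), 0, ?_, ?_⟩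
      · simp only [rk]
        refine Nat.add_lt_add_left ?_ _
        refine Finset.sum_lt_sum (fun l _ => ?_) ⟨i, Finset.mem_univ i, ?_⟩
        · by_cases hl : l = i
          · subst hl; simp
          · simp [Function.update_of_ne hl]
        · simp; omega
      · refine key _ _ ?_
        simp only [sub_self]
        rw [Finset.sum_eq_single i]
        · simp only [Function.update_self]
          have : (((g.2.2 i : ℕ) - 1 : ℕ) : ℝ) = ((g.2.2 i : ℕ) : ℝ) - 1 := by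
            rw [Nat.cast_sub (by omega)]; simp
          rw [this]; norm_num
        · intro l _ hl
          rw [Function.update_of_ne hl]; simp
        · intro h; exact absurd (Finset.mem_univ i) h
    · have hlt : (g.2.1 : ℕ) - 1 < K := lt_of_le_of_lt (Nat.sub_le _ _) (g.2.1).2
      refine ⟨(g.1, ⟨(g.2.1 : ℕ) - 1, hlt⟩, g.2.2), 2, ?_, ?_⟩
      · simp only [rk]; omega
      · refine key _ _ ?_
        have : (((g.2.1 : ℕ) - 1 : ℕ) : ℝ) = ((g.2.1 : ℕ) : ℝ) - 1 := by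
          rw [Nat.cast_sub (by omega)]; simp
        refine le_of_eq ?_
        simp only [this]
        simp only [tx, ty]
        norm_num
        left
        ring
  · have hlt : (g.1 : ℕ) - 1 < K := lt_of_le_of_lt (Nat.sub_le _ _) (g.1).2
    refine ⟨(⟨(g.1 : ℕ) - 1, hlt⟩, g.2.1, g.2.2), 1, ?_, ?_⟩
    · simp only [rk]; omega
    · refine key _ _ ?_
      have : (((g.1 : ℕ) - 1 : ℕ) : ℝ) = ((g.1 : ℕ) : ℝ) - 1 := by
        rw [Nat.cast_sub (by omega)]; simp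
      refine le_of_eq ?_
      simp only [this]
      simp only [tx, ty]
      norm_num
      left
      ring

theorem up_ctr {s : ℝ} (hs : 0 ≤ s) (g : Idx m K) (j : Fin 3) :
    dist (up s g (1 / 3) (1 / 3)) (up s g (tx j) (ty j)) ≤ 0.57736 * s := by
  refine le_of_sq_le_sq ?_ (by positivity)
  rw [up, up, U_dist]
  have : ((2 * ((g.1 : ℕ) : ℝ) + 1 / 3 - (2 * ((g.1 : ℕ) : ℝ) + tx j)) ^ 2 +
      (2 * ((g.1 : ℕ) : ℝ) + 1 / 3 - (2 * ((g.1 : ℕ) : ℝ) + tx j)) *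
        (2 * ((g.2.1 : ℕ) : ℝ) + 1 / 3 - (2 * ((g.2.1 : ℕ) : ℝ) + ty j)) +
      (2 * ((g.2.1 : ℕ) : ℝ) + 1 / 3 - (2 * ((g.2.1 : ℕ) : ℝ) + ty j)) ^ 2 +
      ∑ i, (((g.2.2 i : ℕ) : ℝ) - ((g.2.2 i : ℕ) : ℝ)) ^ 2) = 1 / 3 := by
    simp only [sub_self]
    fin_cases j <;> simp [tx, ty] <;> ring
  rw [this]
  nlinarith [sq_nonneg s]

/-- the points of the pattern -/
noncomputable def pt (s : ℝ) (p : Idx m K × Fin 3) : EuclideanSpace ℝ (Fin (m + 2 + 1)) :=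
  psi (up s p.1 (tx p.2) (ty p.2))

theorem tx_le (j : Fin 3) : (0 : ℝ) ≤ tx j ∧ (tx j : ℝ) ≤ 1 ∧ (0 : ℝ) ≤ ty j ∧ (ty j : ℝ) ≤ 1 := by
  fin_cases j <;> simp [tx, ty]

/-- **ST_PAT**. -/
theorem pat (d : ℕ) (hd : 3 ≤ d) : ST_PAT d := by
  classical
  obtain ⟨m, rfl⟩ : ∃ m, d = m + 2 + 1 := ⟨d - 3, by omega⟩
  set c : ℝ := 1 / (100 * (m + 12)) with hc
  have hc0 : 0 < c := by positivity
  refine ⟨c, hc0, fun K hK => ?_⟩
  have hK' : (1 : ℝ) ≤ K := by exact_mod_cast hK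
  set s : ℝ := c / K with hs
  have hs0 : 0 < s := by positivity
  have hn : ∀ (g : Idx m K) (j : Fin 3), ‖up s g (tx j) (ty j)‖ ≤ 1 / 10 := by
    intro g j
    obtain ⟨h1, h2, h3, h4⟩ := tx_le j
    exact up_norm hK hs hc g h1 h2 h3 h4
  have hnc : ∀ g : Idx m K, ‖up s g (1 / 3) (1 / 3)‖ ≤ 1 / 10 := fun g =>
    up_norm hK hs hc g (by norm_num) (by norm_num) (by norm_num) (by norm_num)
  have hfar : ∀ p q : Idx m K × Fin 3, p ≠ q → s ≤ dist (pt s p) (pt s q) := by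
    rintro ⟨g, j⟩ ⟨g', j'⟩ h
    exact (up_far hs0.le g g' j j' h).trans (psi_lower _ _)
  have hinj : Function.Injective (pt (m := m) (K := K) s) := by
    intro p q h
    by_contra hne
    have := hfar p q hne
    rw [h, dist_self] at this
    linarith
  set A : Finset (E (m + 2 + 1)) := Finset.univ.image (pt s) with hA
  -- predecessors
  have hpred : ∀ g : Idx m K, ∃ (g' : Idx m K) (j : Fin 3), (rk g ≠ 0 → rk g' < rk g) ∧
      dist (up s g (tx 0) (ty 0)) (up s g' (tx j) (ty j)) ≤ s := by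
    intro g
    by_cases h : rk g = 0
    · exact ⟨g, 0, fun h' => absurd h h', by rw [dist_self]; exact hs0.le⟩
    · obtain ⟨g', j, h1, h2⟩ := up_pred hs0.le g h
      exact ⟨g', j, fun _ => h1, h2⟩
  choose pr pj hpr hpd using hpred
  set F : Idx m K → Set (E (m + 2 + 1)) := fun g =>
    (⋃ j : Fin 3, segment ℝ (psi (up s g (1 / 3) (1 / 3))) (pt s (g, j))) ∪
      segment ℝ (pt s (g, 0)) (pt s (pr g, pj g)) with hF
  have hmem : ∀ (g : Idx m K) (j : Fin 3), pt s (g, j) ∈ F g := fun g j =>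
    Or.inl (mem_iUnion.2 ⟨j, right_mem_segment ℝ _ _⟩)
  have hpre : ∀ g, IsPreconnected (F g) := by
    intro g
    refine IsPreconnected.union (pt s (g, 0)) (mem_iUnion.2 ⟨0, right_mem_segment ℝ _ _⟩)
      (left_mem_segment ℝ _ _) ?_ (convex_segment _ _).isPreconnected
    exact isPreconnected_iUnion ⟨psi (up s g (1 / 3) (1 / 3)),
      mem_iInter.2 fun j => left_mem_segment ℝ _ _⟩ fun j => (convex_segment _ _).isPreconnected
  have hseg : ∀ a b : E (m + 2 + 1), IsCompact (segment ℝ a b) := by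
    intro a b
    rw [segment_eq_image_lineMap]
    exact isCompact_Icc.image (by fun_prop)
  have hcomp : ∀ g, IsCompact (F g) := fun g =>
    (isCompact_iUnion fun j => hseg _ _).union (hseg _ _)
  have hKpos : 0 < K := hK
  set g0 : Idx m K := (⟨0, hKpos⟩, ⟨0, hKpos⟩, fun _ => ⟨0, hKpos⟩) with hg0
  have hrk0 : ∀ g : Idx m K, rk g = 0 → g = g0 := by
    intro g hg
    simp only [rk] at hg
    have h1 : ∑ i, (g.2.2 i : ℕ) = 0 := by omega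
    have h2 : ∀ i, (g.2.2 i : ℕ) = 0 := fun i =>
      (Finset.sum_eq_zero_iff.1 h1) i (Finset.mem_univ i)
    refine Prod.ext (Fin.ext ?_) (Prod.ext (Fin.ext ?_) (funext fun i => Fin.ext (h2 i)))
    · show (g.1 : ℕ) = 0
      omega
    · show (g.2.1 : ℕ) = 0
      omega
  have hrel : ∀ n : ℕ, ∀ g : Idx m K, rk g = n →
      Relation.ReflTransGen (fun i j => (F i ∩ F j).Nonempty) g g0 ∧
      Relation.ReflTransGen (fun i j => (F i ∩ F j).Nonempty) g0 g := by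
    intro n
    induction n using Nat.strong_induction_on with
    | _ n ih =>
      intro g hg
      by_cases h : rk g = 0
      · rw [hrk0 g h]; exact ⟨Relation.ReflTransGen.refl, Relation.ReflTransGen.refl⟩
      · obtain ⟨i1, i2⟩ := ih (rk (pr g)) (by rw [← hg]; exact hpr g h) (pr g) rfl
        have hp1 : pt s (pr g, pj g) ∈ F g := Or.inr (right_mem_segment ℝ _ _)
        have hp2 : pt s (pr g, pj g) ∈ F (pr g) := hmem _ _
        exact ⟨Relation.ReflTransGen.head ⟨_, hp1, hp2⟩ i1, i2.tail ⟨_, hp2, hp1⟩⟩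
  refine ⟨A, ?_, ?_, ?_, ⋃ g, F g, isCompact_iUnion hcomp, ⟨⟨pt s (g0, 0),
    mem_iUnion.2 ⟨g0, hmem _ _⟩⟩, IsPreconnected.iUnion_of_reflTransGen hpre fun i j =>
      (hrel _ i rfl).1.trans (hrel _ j rfl).2⟩, ?_, ?_⟩
  · intro a ha
    obtain ⟨p, -, rfl⟩ := Finset.mem_image.1 ha
    exact psi_norm _ ((hn p.1 p.2).trans (by norm_num))
  · rw [hA, Finset.card_image_of_injective _ hinj, Finset.card_univ]
    simp only [Fintype.card_prod, Fintype.card_fin, Fintype.card_fun, Nat.add_sub_cancel]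
    ring
  · intro a ha b hb hab
    obtain ⟨p, -, rfl⟩ := Finset.mem_image.1 ha
    obtain ⟨q, -, rfl⟩ := Finset.mem_image.1 hb
    exact hfar p q fun h => hab (by rw [h])
  · intro a ha
    obtain ⟨p, -, rfl⟩ := Finset.mem_image.1 ha
    exact mem_iUnion.2 ⟨p.1, hmem p.1 p.2⟩
  · -- the length
    have hedist : ∀ (u v : EuclideanSpace ℝ (Fin (m + 2))) (l : ℝ), ‖u‖ ≤ 1 / 10 → ‖v‖ ≤ 1 / 10 →
        dist u v ≤ l → edist (psi u) (psi v) ≤ ENNReal.ofReal (1.006 * l) := by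
      intro u v l hu hv hl
      rw [edist_dist]
      exact ENNReal.ofReal_le_ofReal ((psi_upper u v hu hv).trans (by linarith))
    have h1 : ∀ g, μH[1] (F g) ≤ ENNReal.ofReal (11 / 4 * s) := by
      intro g
      calc μH[1] (F g) ≤ μH[1] (⋃ j : Fin 3, segment ℝ (psi (up s g (1 / 3) (1 / 3)))
              (pt s (g, j))) + μH[1] (segment ℝ (pt s (g, 0)) (pt s (pr g, pj g))) :=
            measure_union_le _ _
        _ ≤ ∑ j : Fin 3, μH[1] (segment ℝ (psi (up s g (1 / 3) (1 / 3))) (pt s (g, j))) +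
              μH[1] (segment ℝ (pt s (g, 0)) (pt s (pr g, pj g))) :=
            add_le_add_left (measure_iUnion_fintype_le _ _) _
        _ ≤ ∑ _j : Fin 3, ENNReal.ofReal (1.006 * (0.57736 * s)) + ENNReal.ofReal (1.006 * s) := by
            refine add_le_add (Finset.sum_le_sum fun j _ => ?_) ?_
            · rw [hausdorffMeasure_segment]
              exact hedist _ _ _ (hnc g) (hn g j) (up_ctr hs0.le g j)
            · rw [hausdorffMeasure_segment]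
              exact hedist _ _ _ (hn g 0) (hn _ _) (hpd g)
        _ ≤ _ := by
            rw [Finset.sum_const, Finset.card_univ, Fintype.card_fin, nsmul_eq_mul,
              ← ENNReal.ofReal_natCast, ← ENNReal.ofReal_mul (by positivity),
              ← ENNReal.ofReal_add (by positivity) (by positivity)]
            refine ENNReal.ofReal_le_ofReal ?_
            push_cast
            nlinarith
    calc μH[1] (⋃ g, F g) ≤ ∑ g, μH[1] (F g) := measure_iUnion_fintype_le _ _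
      _ ≤ ∑ _g : Idx m K, ENNReal.ofReal (11 / 4 * s) := Finset.sum_le_sum fun g _ => h1 g
      _ = ENNReal.ofReal (11 / 4 * K ^ (m + 2) * s) := by
          rw [Finset.sum_const, Finset.card_univ, nsmul_eq_mul, ← ENNReal.ofReal_natCast,
            ← ENNReal.ofReal_mul (by positivity)]
          congr 1
          simp only [Fintype.card_prod, Fintype.card_fin, Fintype.card_fun]
          push_cast
          ring
      _ ≤ _ := le_of_eq (by simp [hs])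

end H11ST.Pat
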