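import Pool.Agent.Helper94.ST.EX
import Pool.Agent.H11ST.Examples
open MeasureTheory Metric Set Filter Topology
open scoped ENNReal NNReal

/-! # Towers: minimal trees with arbitrarily many branching points in a ball -/

namespace H11ST.Tower
open H11ST.EX
open scoped Classical
set_option linter.unusedSectionVars false

section
variable {V : Type*} [NormedAddCommGroup V] [InnerProductSpace ℝ V] [MeasurableSpace V]
  [BorelSpace V]

theorem tau_mono {R : Set V} (hRc : IsCompact R) (hR : R.Nonempty) (n : ℕ) :
    ∀ G : Finset V, G.card ≤ n → ∀ (F : Finset V), F ⊆ G → ∀ a : V, tau R a F ≤ tau R a G := by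
  induction n with
  | zero =>
    intro G hG F hFG a
    have : G = ∅ := Finset.card_eq_zero.1 (by omega)
    subst this
    rw [Finset.subset_empty.1 hFG]
  | succ n ih =>
    intro G hG F hFG a
    by_cases h1 : G.card ≤ 1
    · have hF : F.card ≤ 1 := (Finset.card_le_card hFG).trans h1
      rw [tau_small h1, tau_small hF]
      exact Finset.sum_le_sum_of_subset_of_nonneg hFG fun _ _ _ => dist_nonneg
    obtain ⟨z, hz, P, Q, hP, hQ, hPQ, hu, heq⟩ := tau_attain hRc hR a (F := G) (by omega)
    have hc := card_lt hPQ hP hQ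
    rw [hu] at hc
    rw [heq]
    have i1 := ih P (by omega) (F ∩ P) Finset.inter_subset_right z
    have i2 := ih Q (by omega) (F ∩ Q) Finset.inter_subset_right z
    have hFu : (F ∩ P) ∪ (F ∩ Q) = F := by
      rw [← Finset.inter_union_distrib_left, hu]; exact Finset.inter_eq_left.2 hFG
    have hd : Disjoint (F ∩ P) (F ∩ Q) :=
      hPQ.mono Finset.inter_subset_right Finset.inter_subset_right
    rcases (F ∩ P).eq_empty_or_nonempty with hp | hp
    · have hQ' : F ∩ Q = F := by rw [hp, Finset.empty_union] at hFu; exact hFu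
      have h2 := tau_lip hR a z F
      rw [hQ'] at i2
      have h3 := tau_nonneg R z P
      linarith
    rcases (F ∩ Q).eq_empty_or_nonempty with hq | hq
    · have hP' : F ∩ P = F := by rw [hq, Finset.union_empty] at hFu; exact hFu
      have h2 := tau_lip hR a z F
      rw [hP'] at i1
      have h3 := tau_nonneg R z Q
      linarith
    · have h2 := tau_le (a := a) hz hd hp hq
      rw [hFu] at h2
      linarith

theorem reroot [ProperSpace V] {R : Set V} (hRc : IsCompact R)
    (hconv : Convex ℝ R) {B C : Finset V} {q w : V} (hB : ∀ a ∈ B ∪ C, a ∈ R) (hq : q ∈ B ∪ C) :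
    tau R q ((B ∪ C).erase q) ≤ tau R w B + tau R w C := by
  have hR : R.Nonempty := ⟨q, hB q hq⟩
  obtain ⟨S1, c1, n1, z1, f1, m1⟩ := net hRc hR B.card B le_rfl w
  obtain ⟨S2, c2, n2, z2, f2, m2⟩ := net hRc hR C.card C le_rfl w
  have hm : μH[1] (S1 ∪ S2) ≤ ENNReal.ofReal (tau R w B + tau R w C) := by
    rw [ENNReal.ofReal_add (tau_nonneg _ _ _) (tau_nonneg _ _ _)]
    exact (measure_union_le _ _).trans (add_le_add m1 m2)
  have h1 := tau_lower hRc hconv hB hq (T := S1 ∪ S2) (c1.union c2).isClosed
    (n1.union ⟨w, z1, z2⟩ n2) (by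
      intro a ha
      rcases Finset.mem_union.1 ha with h | h
      · exact Or.inl (f1 a h)
      · exact Or.inr (f2 a h)) (ne_top_of_le_ne_top ENNReal.ofReal_ne_top hm)
  exact h1.trans (ENNReal.toReal_le_of_le_ofReal
    (add_nonneg (tau_nonneg _ _ _) (tau_nonneg _ _ _)) hm)

theorem seg_param (P D : V) {a b : ℝ} (hab : a ≤ b) :
    segment ℝ (P + a • D) (P + b • D) = {z | ∃ t, a ≤ t ∧ t ≤ b ∧ z = P + t • D} := by
  rw [segment_eq_image]
  ext z
  constructor
  · rintro ⟨θ, ⟨h0, h1⟩, rfl⟩
    refine ⟨(1 - θ) * a + θ * b, by nlinarith, by nlinarith, ?_⟩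
    show (1 - θ) • (P + a • D) + θ • (P + b • D) = P + ((1 - θ) * a + θ * b) • D
    module
  · rintro ⟨t, h0, h1, rfl⟩
    rcases eq_or_lt_of_le hab with h | h
    · subst h
      have : t = a := le_antisymm h1 h0
      exact ⟨0, ⟨le_rfl, zero_le_one⟩, by simp [this]⟩
    · refine ⟨(t - a) / (b - a), ⟨div_nonneg (by linarith) (by linarith), ?_⟩, ?_⟩
      · rw [div_le_one (by linarith)]; linarith
      · have hba : b - a ≠ 0 := by linarith
        have e : (1 - (t - a) / (b - a)) * a + (t - a) / (b - a) * b = t := by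
          field_simp; ring
        have e2 : (1 - (t - a) / (b - a)) • (P + a • D) + ((t - a) / (b - a)) • (P + b • D)
            = P + ((1 - (t - a) / (b - a)) * a + (t - a) / (b - a) * b) • D := by module
        rw [e] at e2
        exact e2

variable {e f : V}

theorem dist_vec (he : ‖e‖ = 1) (hf : ‖f‖ = 1) (hef : inner ℝ e f = 0) (P : V) (a b a' b' : ℝ) :
    dist (P + vec e f a b) (P + vec e f a' b') ^ 2 = (a - a') ^ 2 + (b - b') ^ 2 := by
  rw [dist_eq_norm, ← norm_vec_sq he hf hef (a - a') (b - b')]
  congr 2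
  simp only [vec]; module

/-- Ptolemy for an equilateral triangle -/
theorem ptolemy (Q E E' w : V) {d : ℝ} (hd : 0 < d) (h1 : dist Q E = d) (h2 : dist E E' = d)
    (h3 : dist Q E' = d) : dist w E' ≤ dist w Q + dist w E := by
  have h := EuclideanGeometry.mul_dist_le_mul_dist_add_mul_dist Q w E E'
  rw [h1, h2, h3] at h
  rw [dist_comm Q w] at h
  have : d * dist w E' ≤ d * (dist w Q + dist w E) := by nlinarith
  exact le_of_mul_le_mul_left this hd

/-- the two directions -/
noncomputable def dir (e f : V) (σ : ℝ) : V := vec e f (σ / 2) (√3 / 2)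

theorem sq3' : √3 ^ 2 = 3 := Real.sq_sqrt (by norm_num)

theorem smul_dir (σ t : ℝ) : t • dir e f σ = vec e f (σ * t / 2) (t * √3 / 2) := by
  simp only [dir, vec]; module

theorem dir_norm (he : ‖e‖ = 1) (hf : ‖f‖ = 1) (hef : inner ℝ e f = 0) {σ : ℝ}
    (hσ : σ = 1 ∨ σ = -1) : ‖dir e f σ‖ = 1 := by
  refine norm_vec_one he hf hef ?_
  have h3 := sq3'
  rcases hσ with rfl | rfl <;> nlinarith

theorem vec_add (a b a' b' : ℝ) : vec e f a b + vec e f a' b' = vec e f (a + a') (b + b') := by
  simp only [vec]; module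

/-- one stage of the tower: terminals `A` (besides the last terminal `P`), apex
`P + l • dir σ`, minimal tree `S ∪ segment P (P + s • dir σ)`, tripod points `Y` -/
structure Stg (R : Set V) (e f : V) (σ : ℝ) (P : V) (l r s : ℝ) (A Y : Finset V) (S : Set V) :
    Prop where
  r0 : 0 < r
  r1 : r ≤ 1
  rs : r ≤ s
  sl : s ≤ l
  sub : ball P r ⊆ R
  AR : ∀ a ∈ A, a ∈ R
  Ane : A.Nonempty
  Afar : ∀ a ∈ A, a ∉ ball P r
  lb : ∀ z ∈ ball P r, dist z (P + l • dir e f σ) ≤ tau R z A
  gap : ∀ z ∈ ball P r, ∀ B C : Finset V, B.Nonempty → C.Nonempty → Disjoint B C → B ∪ C = A →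
    dist z (P + l • dir e f σ) + r ≤ tau R z B + tau R z C
  Sc : IsCompact S
  Sn : IsConnected S
  AS : ∀ a ∈ A, a ∈ S
  vS : P + s • dir e f σ ∈ S
  Sfar : ∀ z ∈ S, z ∉ ball P r
  mu : μH[1] S ≤ ENNReal.ofReal (l - s)
  tri : ∀ y ∈ Y, y ∉ A ∧ ∃ u ε, Tri (S ∪ segment ℝ P (P + s • dir e f σ)) y u ε ∧
    Disjoint (ball y ε) (ball P r)
  out : ∀ t : ℝ, |t| < r → (∀ a ∈ A, 1 ≤ dist a (P + vec e f t 1)) ∧
    ∀ y ∈ Y, dist y (P + vec e f t 1) ≤ 1 - r

/-- the data of the next stage -/
structure Geo (e f : V) (σ : ℝ) (P : V) (l x c : ℝ) (E v Q P' E' : V) : Prop where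
  e1 : E = P + l • dir e f σ
  e2 : v = P + c • dir e f σ
  e3 : Q = P + vec e f (σ * c / 2 - σ * x) (c * √3 / 2)
  e4 : P' = P + vec e f (σ * c) 0
  e5 : E' = P' + (l + x) • dir e f (-σ)
  v' : v = P' + c • dir e f (-σ)
  pt : ∀ w, dist w E' ≤ dist w Q + dist w E
  dPQ : dist P Q ≤ c + x
  dPP : dist P P' = c
  dPE : dist P E = l
  dPE' : dist P' E' = l + x
  dPv : dist P v = c
  dvP' : dist v P' = c
  strict : l + x + c ^ 2 / (3 * x) ≤ dist P' Q + dist P' E
  inner1 : ∀ w, |inner ℝ f (w - P')| ≤ dist w P'

theorem geo (he : ‖e‖ = 1) (hf : ‖f‖ = 1) (hef : inner ℝ e f = 0) {σ l x c : ℝ}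
    (hσ : σ = 1 ∨ σ = -1) (P : V) (hc : 0 < c) (hx : 0 < x) (hl : c < l) (hcx : 400 * c ≤ x) :
    ∃ E v Q P' E' : V, Geo e f σ P l x c E v Q P' E' := by
  have h3 := sq3'
  have hσ2 : σ ^ 2 = 1 := by rcases hσ with rfl | rfl <;> norm_num
  refine ⟨P + l • dir e f σ, P + c • dir e f σ, P + vec e f (σ * c / 2 - σ * x) (c * √3 / 2),
    P + vec e f (σ * c) 0, P + vec e f (σ * c) 0 + (l + x) • dir e f (-σ), ?_⟩
  have hE' : P + vec e f (σ * c) 0 + (l + x) • dir e f (-σ) =
      P + vec e f (σ * c - σ * (l + x) / 2) ((l + x) * √3 / 2) := by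
    rw [smul_dir, add_assoc, vec_add]; congr 2 <;> ring
  have hE : P + l • dir e f σ = P + vec e f (σ * l / 2) (l * √3 / 2) := by rw [smul_dir]
  have hv : P + c • dir e f σ = P + vec e f (σ * c / 2) (c * √3 / 2) := by rw [smul_dir]
  have hP : P = P + vec e f 0 0 := by simp [vec]
  have dd := fun a b a' b' => dist_vec he hf hef P a b a' b'
  have sqd : ∀ (p q : V) (y : ℝ), 0 ≤ y → dist p q ^ 2 = y ^ 2 → dist p q = y := by
    intro p q y hy h
    exact (pow_left_inj₀ dist_nonneg hy (by norm_num)).1 h
  set d : ℝ := √((l - c) ^ 2 + (l - c) * x + x ^ 2) with hd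
  have hd0 : 0 < (l - c) ^ 2 + (l - c) * x + x ^ 2 := by
    have : 0 < (l - c) * x := mul_pos (by linarith) hx
    positivity
  have hdp : 0 < d := Real.sqrt_pos.2 hd0
  have hd2 : d ^ 2 = (l - c) ^ 2 + (l - c) * x + x ^ 2 := Real.sq_sqrt hd0.le
  refine ⟨rfl, rfl, rfl, rfl, rfl, ?_, ?_, ?_, ?_, ?_, ?_, ?_, ?_, ?_, ?_⟩
  · rw [smul_dir, smul_dir, add_assoc, vec_add]; congr 2 <;> ring
  · intro w
    refine ptolemy _ _ _ w hdp (sqd _ _ _ hdp.le ?_) (sqd _ _ _ hdp.le ?_) (sqd _ _ _ hdp.le ?_)
    · rw [hE, dd, hd2]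
      linear_combination ((l - c) / 2 + x) ^ 2 * hσ2 + ((c - l) / 2) ^ 2 * h3
    · rw [hE, hE', dd, hd2]
      linear_combination (l - c + x / 2) ^ 2 * hσ2 + (x / 2) ^ 2 * h3
    · rw [hE', dd, hd2]
      linear_combination ((l - c - x) / 2) ^ 2 * hσ2 + ((l + x - c) / 2) ^ 2 * h3
  · refine le_of_sq_le_sq ?_ (by positivity)
    have : dist P (P + vec e f (σ * c / 2 - σ * x) (c * √3 / 2)) ^ 2 = (c / 2 - x) ^ 2 + 3 * c ^ 2 / 4 := by
      conv_lhs => rw [hP]
      rw [show P + vec e f 0 0 + vec e f (σ * c / 2 - σ * x) (c * √3 / 2) =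
        P + vec e f (σ * c / 2 - σ * x) (c * √3 / 2) by simp [vec], dd]
      linear_combination (c / 2 - x) ^ 2 * hσ2 + (c / 2) ^ 2 * h3
    rw [this]; nlinarith [mul_pos hc hx]
  · refine sqd _ _ _ hc.le ?_
    have := dd 0 0 (σ * c) 0
    rw [← hP] at this
    rw [this]; linear_combination c ^ 2 * hσ2
  · rw [dist_eq_norm]
    simp [norm_smul, dir_norm he hf hef hσ, abs_of_pos (hc.trans hl)]
  · rw [dist_eq_norm]
    have hσ' : -σ = 1 ∨ -σ = -1 := by
      rcases hσ with rfl | rfl
      · right; rfl
      · left; norm_num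
    simp [norm_smul, dir_norm he hf hef hσ', abs_of_pos (by linarith : 0 < l + x)]
  · rw [dist_eq_norm]
    simp [norm_smul, dir_norm he hf hef hσ, abs_of_pos hc]
  · refine sqd _ _ _ hc.le ?_
    rw [hv, dd]
    linear_combination (c / 2) ^ 2 * hσ2 + (c / 2) ^ 2 * h3
  · have a1 : x + c / 2 + c ^ 2 / (3 * x) ≤ dist (P + vec e f (σ * c) 0)
        (P + vec e f (σ * c / 2 - σ * x) (c * √3 / 2)) := by
      refine le_of_sq_le_sq ?_ dist_nonneg
      have b1 : (σ * c - (σ * c / 2 - σ * x)) ^ 2 + (0 - c * √3 / 2) ^ 2 = x ^ 2 + c * x + c ^ 2 := by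
        linear_combination (c / 2 + x) ^ 2 * hσ2 + (c / 2) ^ 2 * h3
      rw [dd, b1]
      set q : ℝ := c / x with hq
      have hq0 : 0 < q := by positivity
      have hq1 : q ≤ 1 / 400 := by rw [hq, div_le_iff₀ hx]; linarith
      have hcq : c = q * x := by rw [hq]; field_simp
      have b2 : c ^ 2 / (3 * x) = q ^ 2 * x / 3 := by rw [hcq]; field_simp
      rw [b2, hcq]
      have b3 : (x + q * x / 2 + q ^ 2 * x / 3) ^ 2 =
          x ^ 2 * (1 + q / 2 + q ^ 2 / 3) ^ 2 := by ring
      have b4 : x ^ 2 + q * x * x + (q * x) ^ 2 = x ^ 2 * (1 + q + q ^ 2) := by ring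
      rw [b3, b4]
      refine mul_le_mul_of_nonneg_left ?_ (sq_nonneg x)
      have b5 : (1 + q / 2 + q ^ 2 / 3) ^ 2 = 1 + q + q ^ 2 * (11 / 12 + q / 3 + q ^ 2 / 9) := by
        ring
      rw [b5]
      have b6 : 11 / 12 + q / 3 + q ^ 2 / 9 ≤ 1 := by nlinarith
      nlinarith [sq_nonneg q]
    have a2 : l - c / 2 < dist (P + vec e f (σ * c) 0) (P + l • dir e f σ) := by
      refine lt_of_pow_lt_pow_left₀ 2 dist_nonneg ?_
      rw [hE, dd]
      nlinarith [hσ2, h3, mul_pos hc hc]
    linarith
  · intro w
    have := abs_real_inner_le_norm f (w - (P + vec e f (σ * c) 0))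
    rw [hf, one_mul, ← dist_eq_norm] at this
    exact this

/-- the decomposition of a partition of `insert Q A` -/
theorem part {R : Set V} (hRc : IsCompact R) (hR : R.Nonempty) {A : Finset V} {Q w : V} {m : ℝ}
    (hQ : Q ∉ A) (hgap : ∀ B C : Finset V, B.Nonempty → C.Nonempty → Disjoint B C → B ∪ C = A →
      m ≤ tau R w B + tau R w C) {B C : Finset V} (hB : B.Nonempty) (hC : C.Nonempty)
    (hd : Disjoint B C) (hu : B ∪ C = insert Q A) :
    tau R w B + tau R w C = dist w Q + tau R w A ∨ m ≤ tau R w B + tau R w C := by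
  have key : ∀ B C : Finset V, C.Nonempty → Disjoint B C → B ∪ C = insert Q A → Q ∈ B →
      tau R w B + tau R w C = dist w Q + tau R w A ∨ m ≤ tau R w B + tau R w C := by
    intro B C hC hd hu hQB
    have hQC : Q ∉ C := fun h => (Finset.disjoint_left.1 hd) hQB h
    have hA : B.erase Q ∪ C = A := by
      ext y
      have h1 : y ∈ B ∪ C ↔ y ∈ insert Q A := by rw [hu]
      simp only [Finset.mem_union, Finset.mem_insert, Finset.mem_erase] at h1 ⊢
      constructor
      · rintro (⟨h2, h3⟩ | h3)
        · exact (h1.1 (Or.inl h3)).resolve_left h2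
        · exact (h1.1 (Or.inr h3)).resolve_left (fun h => hQC (h ▸ h3))
      · intro h2
        rcases h1.2 (Or.inr h2) with h3 | h3
        · exact Or.inl ⟨fun h => hQ (h ▸ h2), h3⟩
        · exact Or.inr h3
    rcases (B.erase Q).eq_empty_or_nonempty with h | h
    · left
      have hB1 : B = {Q} := by
        have h2 := Finset.insert_erase hQB
        rw [h] at h2
        rw [← h2]; simp
      rw [h, Finset.empty_union] at hA
      rw [hB1, hA, tau_single]
    · right
      refine (hgap _ _ h hC (hd.mono_left (Finset.erase_subset _ _)) hA).trans ?_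
      have := tau_mono hRc hR B.card B le_rfl (B.erase Q) (Finset.erase_subset _ _) w
      linarith
  have hQu : Q ∈ B ∪ C := by rw [hu]; exact Finset.mem_insert_self _ _
  rcases Finset.mem_union.1 hQu with h | h
  · exact key B C hC hd hu h
  · rcases key C B hB hd.symm (by rw [Finset.union_comm]; exact hu) h with h1 | h1
    · left; linarith
    · right; linarith

theorem height_seg {a b z p : V} {t : ℝ} (hz : z ∈ segment ℝ a b) (ha : t ≤ inner ℝ f (a - p))
    (hb : t ≤ inner ℝ f (b - p)) : t ≤ inner ℝ f (z - p) := by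
  obtain ⟨α, β, h1, h2, h3, rfl⟩ := hz
  have : α • a + β • b - p = α • (a - p) + β • (b - p) := by
    have : p = (α + β) • p := by rw [h3, one_smul]
    conv_lhs => rw [this]
    module
  rw [this, inner_add_right, inner_smul_right, inner_smul_right]
  have h4 := mul_le_mul_of_nonneg_left ha h1
  have h5 := mul_le_mul_of_nonneg_left hb h2
  have h6 : α * t + β * t = t := by rw [← add_mul, h3, one_mul]
  linarith

theorem inner_f_vec (hf : ‖f‖ = 1) (hef : inner ℝ e f = 0) (a b : ℝ) :
    inner ℝ f (vec e f a b) = b := by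
  have hfe : inner ℝ f e = 0 := by rw [real_inner_comm]; exact hef
  simp only [vec, inner_add_right, inner_smul_right, hfe, real_inner_self_eq_norm_sq, hf]
  simp

/-- **The step of the tower.** -/
theorem step [ProperSpace V] {R : Set V} (hRc : IsCompact R) (hconv : Convex ℝ R)
    (he : ‖e‖ = 1) (hf : ‖f‖ = 1) (hef : inner ℝ e f = 0) {σ : ℝ} (hσ : σ = 1 ∨ σ = -1)
    {P : V} {l r s : ℝ} {A Y : Finset V} {S : Set V} (h : Stg R e f σ P l r s A Y S) :
    ∃ (P' : V) (l' s' : ℝ) (A' Y' : Finset V) (S' : Set V),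
      Stg R e f (-σ) P' l' (r ^ 3 / 10 ^ 10) s' A' Y' S' ∧ Y'.card = Y.card + 1 := by
  obtain ⟨r0, r1, rs, sl, sub, AR, Ane, Afar, lb, gap, Sc, Sn, AS, vS, Sfar, mu, tri, out⟩ := h
  set x : ℝ := r / 100 with hx
  set c : ℝ := x ^ 2 / 4 with hc
  set ρ : ℝ := r ^ 3 / 10 ^ 10 with hρ
  have x0 : 0 < x := by positivity
  have c0 : 0 < c := by positivity
  have ρ0 : 0 < ρ := by positivity
  have x1 : x ≤ 1 / 100 := by rw [hx]; linarith
  have cx : 400 * c ≤ x := by rw [hc]; nlinarith
  have hrr : r ^ 3 ≤ r ^ 2 := pow_le_pow_of_le_one r0.le r1 (by norm_num)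
  have ρc : 4 * ρ ≤ c := by rw [hρ, hc, hx]; nlinarith [sq_nonneg r]
  have xr : 100 * x = r := by rw [hx]; ring
  have cl : c < l := by linarith
  have hσ2 : σ ^ 2 = 1 := by rcases hσ with rfl | rfl <;> norm_num
  have hσ' : -σ = 1 ∨ -σ = -1 := by
    rcases hσ with rfl | rfl
    · right; rfl
    · left; norm_num
  have h3 := sq3'
  have h3lo : (1.732 : ℝ) ≤ √3 := by
    rw [Real.le_sqrt' (by norm_num)]; norm_num
  have h3hi : √3 ≤ 1.7321 := by
    rw [Real.sqrt_le_left (by norm_num)]; norm_num
  obtain ⟨E, v, Q, P', E', G⟩ := geo he hf hef hσ P c0 x0 cl cx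
  have hR : R.Nonempty := ⟨P, sub (mem_ball_self r0)⟩
  have hQr : Q ∈ ball P r := by rw [mem_ball, dist_comm]; linarith [G.dPQ]
  have hvr : v ∈ ball P r := by rw [mem_ball, dist_comm]; linarith [G.dPv]
  have hP'r : P' ∈ ball P r := by rw [mem_ball, dist_comm]; linarith [G.dPP]
  have hsub : ball P' ρ ⊆ ball P r := ball_subset_ball' (by rw [dist_comm, G.dPP]; linarith)
  have hQA : Q ∉ A := fun h => Afar Q h hQr
  have hgap : c ^ 2 / (3 * x) ≥ 4 * ρ := by
    have : c ^ 2 / (3 * x) = x ^ 3 / 48 := by rw [hc]; field_simp; norm_num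
    rw [this, hρ, hx]
    have : 0 < r ^ 3 := by positivity
    ring_nf
    nlinarith
  have hsegc : ∀ a b : V, IsCompact (segment ℝ a b) := by
    intro a b
    rw [segment_eq_image_lineMap]
    exact isCompact_Icc.image (by fun_prop)
  have hsegn : ∀ a b : V, IsConnected (segment ℝ a b) := fun a b =>
    (convex_segment a b).isConnected ⟨a, left_mem_segment ℝ a b⟩
  have far : ∀ z ∈ ball P' ρ, dist z E' ≤ dist z P' + (l + x) ∧ l - dist z P ≤ dist z E ∧
      dist z P ≤ dist z P' + c ∧ dist z P' < ρ := by
    intro z hz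
    refine ⟨?_, ?_, ?_, hz⟩
    · rw [← G.dPE']; exact dist_triangle _ _ _
    · have := dist_triangle P z E
      rw [G.dPE, dist_comm P z] at this; linarith
    · have := dist_triangle z P' P
      rw [dist_comm P' P, G.dPP] at this; linarith
  refine ⟨P', l + x, c, insert Q A, insert v Y,
    S ∪ (segment ℝ v (P + s • dir e f σ) ∪ segment ℝ v Q), ⟨ρ0, ?_, ?_, ?_, ?_, ?_, ?_, ?_, ?_, ?_,
      ?_, ?_, ?_, ?_, ?_, ?_, ?_, ?_⟩, ?_⟩
  · linarith
  · linarith
  · linarith
  · exact hsub.trans sub
  · intro a ha
    rcases Finset.mem_insert.1 ha with rfl | ha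
    · exact sub hQr
    · exact AR a ha
  · exact Finset.insert_nonempty _ _
  · intro a ha hb
    rcases Finset.mem_insert.1 ha with rfl | ha
    · -- height of Q
      have h1 := G.inner1 a
      have h2 : inner ℝ f (a - P') = c * √3 / 2 := by
        rw [G.e3, G.e4, show P + vec e f (σ * c / 2 - σ * x) (c * √3 / 2) - (P + vec e f (σ * c) 0) =
          vec e f (σ * c / 2 - σ * x - σ * c) (c * √3 / 2) by simp only [vec]; module,
          inner_f_vec hf hef]
      rw [h2, abs_of_pos (by positivity)] at h1
      rw [mem_ball] at hb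
      nlinarith
    · exact Afar a ha (hsub hb)
  · -- lb
    intro z hz
    obtain ⟨e1, e2, e3, e4⟩ := far z hz
    rw [← G.e5]
    have hcard : 1 < (insert Q A).card := by
      rw [Finset.card_insert_of_notMem hQA]
      have := Ane.card_pos
      omega
    obtain ⟨w, hw, B, C, hB, hC, hd, hu, heq⟩ := tau_attain hRc hR z (F := insert Q A) hcard
    rw [heq]
    by_cases hwr : w ∈ ball P r
    · rcases part hRc hR hQA (m := dist w E + r) (fun B C h1 h2 h3 h4 => by
        rw [G.e1]; exact gap w hwr B C h1 h2 h3 h4) hB hC hd hu with h1 | h1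
      · have h2 := lb w hwr
        rw [← G.e1] at h2
        have h3 := G.pt w
        have h4 := dist_triangle z w E'
        linarith
      · have h4 := dist_triangle z w E
        linarith
    · have h1 : r ≤ dist w P := by simpa [mem_ball, not_lt] using hwr
      have h2 := dist_triangle w z P
      rw [dist_comm w z] at h2
      have h4 := reroot hRc hconv (B := B) (C := C) (q := Q) (w := w) (by
        rw [hu]
        intro a ha
        rcases Finset.mem_insert.1 ha with rfl | ha
        · exact sub hQr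
        · exact AR a ha) (by rw [hu]; exact Finset.mem_insert_self _ _)
      rw [hu, Finset.erase_insert hQA] at h4
      have h5 := lb Q hQr
      rw [← G.e1] at h5
      have h6 := dist_triangle P Q E
      rw [G.dPE] at h6
      have h7 := G.dPQ
      linarith
  · -- gap
    intro z hz B C hB hC hd hu
    obtain ⟨e1, e2, e3, e4⟩ := far z hz
    rw [← G.e5]
    have hzr := hsub hz
    rcases part hRc hR hQA (m := dist z E + r) (fun B C h1 h2 h3 h4 => by
        rw [G.e1]; exact gap z hzr B C h1 h2 h3 h4) hB hC hd hu with h1 | h1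
    · have h2 := lb z hzr
      rw [← G.e1] at h2
      have h3 := G.strict
      have h4 := dist_triangle P' z Q
      have h5 := dist_triangle P' z E
      rw [dist_comm P' z] at h4 h5
      linarith
    · linarith
  · exact Sc.union ((hsegc _ _).union (hsegc _ _))
  · refine Sn.union ⟨P + s • dir e f σ, vS, Or.inl (right_mem_segment ℝ _ _)⟩ ?_
    exact (hsegn _ _).union ⟨v, left_mem_segment ℝ _ _, left_mem_segment ℝ _ _⟩ (hsegn _ _)
  · intro a ha
    rcases Finset.mem_insert.1 ha with rfl | ha
    · exact Or.inr (Or.inr (right_mem_segment ℝ _ _))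
    · exact Or.inl (AS a ha)
  · rw [← G.v']
    exact Or.inr (Or.inl (left_mem_segment ℝ _ _))
  · -- S' is far from P'
    intro z hz hb
    have hv1 : inner ℝ f (v - P') = c * √3 / 2 := by
      rw [G.v', add_sub_cancel_left, smul_dir, inner_f_vec hf hef]
    have hQ1 : inner ℝ f (Q - P') = c * √3 / 2 := by
      rw [G.e3, G.e4, show P + vec e f (σ * c / 2 - σ * x) (c * √3 / 2) - (P + vec e f (σ * c) 0) =
        vec e f (σ * c / 2 - σ * x - σ * c) (c * √3 / 2) by simp only [vec]; module,
        inner_f_vec hf hef]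
    have hv0 : c * √3 / 2 ≤ inner ℝ f (P + s • dir e f σ - P') := by
      rw [G.e4, smul_dir, show P + vec e f (σ * s / 2) (s * √3 / 2) - (P + vec e f (σ * c) 0) =
        vec e f (σ * s / 2 - σ * c) (s * √3 / 2) by simp only [vec]; module, inner_f_vec hf hef]
      have : c ≤ s := by linarith
      have h3p : 0 ≤ √3 := Real.sqrt_nonneg _
      nlinarith
    have hh : ∀ z ∈ segment ℝ v (P + s • dir e f σ) ∪ segment ℝ v Q,
        c * √3 / 2 ≤ inner ℝ f (z - P') := by
      rintro z (hz | hz)
      · exact height_seg hz hv1.ge hv0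
      · exact height_seg hz hv1.ge hQ1.ge
    rcases hz with hz | hz
    · exact Sfar z hz (hsub hb)
    · have h1 := G.inner1 z
      have h2 := hh z hz
      have h4 := le_abs_self (inner ℝ f (z - P'))
      rw [mem_ball] at hb
      nlinarith
  · -- the length
    have d1 : edist v (P + s • dir e f σ) = ENNReal.ofReal (s - c) := by
      rw [edist_dist, G.e2, dist_comm, dist_eq_norm]
      congr 1
      rw [show P + s • dir e f σ - (P + c • dir e f σ) = (s - c) • dir e f σ by module, norm_smul,
        dir_norm he hf hef hσ, mul_one, Real.norm_eq_abs, abs_of_nonneg (by linarith)]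
    have d2 : edist v Q = ENNReal.ofReal x := by
      rw [edist_dist, dist_comm, dist_eq_norm]
      congr 1
      rw [G.e2, G.e3, smul_dir, show P + vec e f (σ * c / 2 - σ * x) (c * √3 / 2) -
        (P + vec e f (σ * c / 2) (c * √3 / 2)) = (-(σ * x)) • e by simp only [vec]; module,
        norm_smul, he, mul_one, Real.norm_eq_abs, abs_neg, abs_mul, abs_of_pos x0]
      rcases hσ with rfl | rfl <;> simp
    calc μH[1] (S ∪ (segment ℝ v (P + s • dir e f σ) ∪ segment ℝ v Q))
        ≤ μH[1] S + (μH[1] (segment ℝ v (P + s • dir e f σ)) + μH[1] (segment ℝ v Q)) :=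
          (measure_union_le _ _).trans (add_le_add_right (measure_union_le _ _) _)
      _ ≤ ENNReal.ofReal (l - s) + (ENNReal.ofReal (s - c) + ENNReal.ofReal x) := by
          rw [hausdorffMeasure_segment, hausdorffMeasure_segment, d1, d2]
          exact add_le_add_left mu _
      _ = ENNReal.ofReal (l + x - c) := by
          rw [← ENNReal.ofReal_add (by linarith) x0.le, ← ENNReal.ofReal_add (by linarith)
            (by linarith)]
          congr 1; ring
  · -- tripods
    intro y hy
    rw [← G.v']
    rcases Finset.mem_insert.1 hy with rfl | hy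
    · refine ⟨?_, ?_⟩
      · intro h
        rcases Finset.mem_insert.1 h with h | h
        · have h1 := G.e3
          rw [← h, G.e2, smul_dir] at h1
          have h2 := dist_vec he hf hef P (σ * c / 2) (c * √3 / 2) (σ * c / 2 - σ * x) (c * √3 / 2)
          rw [← h1, dist_self] at h2
          have h5 : (σ * c / 2 - (σ * c / 2 - σ * x)) ^ 2 = x ^ 2 := by
            linear_combination x ^ 2 * hσ2
          rw [h5] at h2
          have : 0 < x ^ 2 := by positivity
          nlinarith
        · exact Afar _ h hvr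
      · refine ⟨![dir e f σ, (-σ) • e, -(dir e f (-σ))], c / 2, ?_, ?_⟩
        · refine tri_of_segments (R := S) (l := ![s - c, x, c]) (by positivity) ?_ ?_ ?_ ?_ ?_
          · intro i
            fin_cases i
            · exact dir_norm he hf hef hσ
            · show ‖(-σ) • e‖ = 1
              rw [norm_smul, he, mul_one, Real.norm_eq_abs, abs_neg]
              rcases hσ with rfl | rfl <;> simp
            · show ‖-(dir e f (-σ))‖ = 1
              rw [norm_neg]; exact dir_norm he hf hef hσ'
          · have i1 : inner ℝ (dir e f σ) ((-σ) • e) = -(1 / 2 : ℝ) := by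
              rw [show (-σ) • e = vec e f (-σ) 0 by simp only [vec]; module, dir,
                inner_vec he hf hef]
              linear_combination (-1 / 2) * hσ2
            have i2 : inner ℝ (dir e f σ) (-(dir e f (-σ))) = -(1 / 2 : ℝ) := by
              rw [inner_neg_right, dir, dir, inner_vec he hf hef]
              linear_combination (1 / 4) * hσ2 - (1 / 4) * h3
            have i3 : inner ℝ ((-σ) • e) (-(dir e f (-σ))) = -(1 / 2 : ℝ) := by
              rw [inner_neg_right, show (-σ) • e = vec e f (-σ) 0 by simp only [vec]; module, dir,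
                inner_vec he hf hef]
              linear_combination (-1 / 2) * hσ2
            intro i j hij
            fin_cases i <;> fin_cases j
            · exact absurd rfl hij
            · exact i1
            · exact i2
            · show inner ℝ ((-σ) • e) (dir e f σ) = -(1 / 2 : ℝ)
              rw [real_inner_comm]; exact i1
            · exact absurd rfl hij
            · exact i3
            · show inner ℝ (-(dir e f (-σ))) (dir e f σ) = -(1 / 2 : ℝ)
              rw [real_inner_comm]; exact i2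
            · show inner ℝ (-(dir e f (-σ))) ((-σ) • e) = -(1 / 2 : ℝ)
              rw [real_inner_comm]; exact i3
            · exact absurd rfl hij
          · intro i
            fin_cases i
            · show c / 2 ≤ s - c
              linarith
            · show c / 2 ≤ x
              linarith
            · show c / 2 ≤ c
              linarith
          · have q0 : y + (s - c) • dir e f σ = P + s • dir e f σ := by rw [G.e2]; module
            have q1 : y + x • ((-σ) • e) = Q := by
              rw [G.e2, G.e3, smul_dir]; simp only [vec]; module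
            have q2 : y + c • -(dir e f (-σ)) = P' := by
              conv_lhs => rw [G.v']
              module
            have hU : (⋃ i : Fin 3, segment ℝ y (y + (![s - c, x, c] : Fin 3 → ℝ) i •
                (![dir e f σ, (-σ) • e, -(dir e f (-σ))] : Fin 3 → V) i)) =
                segment ℝ y (P + s • dir e f σ) ∪ segment ℝ y Q ∪ segment ℝ y P' := by
              ext z
              constructor
              · intro h
                obtain ⟨i, hi⟩ := mem_iUnion.1 h
                fin_cases i
                · left; left; rw [← q0]; exact hi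
                · left; right; rw [← q1]; exact hi
                · right; rw [← q2]; exact hi
              · rintro ((h | h) | h)
                · rw [← q0] at h; exact mem_iUnion.2 ⟨0, h⟩
                · rw [← q1] at h; exact mem_iUnion.2 ⟨1, h⟩
                · rw [← q2] at h; exact mem_iUnion.2 ⟨2, h⟩
            rw [hU, segment_symm ℝ P' y]
            ext z
            simp only [mem_union]
            tauto
          · intro z hz hb
            refine Sfar z hz (ball_subset_ball' ?_ hb)
            rw [dist_comm, G.dPv]; linarith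
        · refine ball_disjoint_ball ?_
          rw [G.dvP']; linarith
    · obtain ⟨hyA, u, ε, hT, hdis⟩ := tri y hy
      have hyr : y ∉ ball P r := fun h => (Set.disjoint_left.1 hdis) (mem_ball_self hT.pos) h
      refine ⟨?_, u, ε, ⟨hT.pos, hT.norm, hT.ang, ?_⟩, hdis.mono_right hsub⟩
      · intro h
        rcases Finset.mem_insert.1 h with h | h
        · exact hyr (h ▸ hQr)
        · exact hyA h
      · rw [← hT.eq]
        have s1 := seg_param P (dir e f σ) (a := 0) (b := s) (by linarith)
        have s2 := seg_param P (dir e f σ) (a := c) (b := s) (by linarith)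
        rw [zero_smul, add_zero] at s1
        rw [← G.e2] at s2
        ext z
        constructor
        · rintro ⟨hz, hb⟩
          have hzr : z ∉ ball P r := fun h => (Set.disjoint_left.1 hdis) hb h
          refine ⟨?_, hb⟩
          rcases hz with (hz | hz | hz) | hz
          · exact Or.inl hz
          · right
            rw [s2] at hz
            rw [s1]
            obtain ⟨t, h1, h2, h4⟩ := hz
            exact ⟨t, by linarith, h2, h4⟩
          · exact absurd ((convex_ball P r).segment_subset hvr hQr hz) hzr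
          · exact absurd ((convex_ball P r).segment_subset hP'r hvr hz) hzr
        · rintro ⟨hz, hb⟩
          have hzr : z ∉ ball P r := fun h => (Set.disjoint_left.1 hdis) hb h
          refine ⟨?_, hb⟩
          rcases hz with hz | hz
          · exact Or.inl (Or.inl hz)
          · left; right; left
            rw [s1] at hz
            rw [s2]
            obtain ⟨t, h1, h2, h4⟩ := hz
            refine ⟨t, ?_, h2, h4⟩
            by_contra hcon
            push Not at hcon
            refine hzr ?_
            rw [h4, mem_ball, dist_eq_norm, add_sub_cancel_left, norm_smul,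
              dir_norm he hf hef hσ, mul_one, Real.norm_eq_abs, abs_of_nonneg h1]
            linarith
  · -- ball
    intro t ht
    have hc' : P' + vec e f t 1 = P + vec e f (σ * c + t) 1 := by
      rw [G.e4, add_assoc, vec_add]; congr 2; ring
    rw [hc']
    have ht2 : |σ * c + t| < r := by
      have h1 : |σ * c| = c := by
        rw [abs_mul, abs_of_pos c0]
        rcases hσ with rfl | rfl <;> simp
      have h2 := abs_add_le (σ * c) t
      linarith
    obtain ⟨o1, o2⟩ := out _ ht2
    obtain ⟨t1, t2⟩ := abs_lt.1 ht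
    constructor
    · intro a ha
      rcases Finset.mem_insert.1 ha with rfl | ha
      · refine le_of_sq_le_sq ?_ dist_nonneg
        rw [G.e3, dist_vec he hf hef]
        have e1 : x ^ 2 ≤ (σ * c / 2 - σ * x - (σ * c + t)) ^ 2 := by
          have e2 : (σ * c / 2 - σ * x - (σ * c + t)) ^ 2 = (x + c / 2 + σ * t) ^ 2 := by
            linear_combination ((x + c / 2) ^ 2 - t ^ 2) * hσ2
          rw [e2]
          have e3 : -ρ ≤ σ * t := by rcases hσ with rfl | rfl <;> linarith
          exact pow_le_pow_left₀ x0.le (by linarith) 2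
        have e4 : 1 - x ^ 2 ≤ (c * √3 / 2 - 1) ^ 2 := by
          have : c * √3 ≤ x ^ 2 := by rw [hc]; nlinarith
          nlinarith
        linarith
      · exact o1 a ha
    · intro y hy
      rcases Finset.mem_insert.1 hy with rfl | hy
      · refine le_of_sq_le_sq ?_ (by linarith)
        rw [G.e2, smul_dir, dist_vec he hf hef]
        have e1 : (σ * c / 2 - (σ * c + t)) ^ 2 ≤ (3 * c / 4) ^ 2 := by
          have e2 : (σ * c / 2 - (σ * c + t)) ^ 2 = (c / 2 + σ * t) ^ 2 := by
            linear_combination ((c / 2) ^ 2 - t ^ 2) * hσ2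
          rw [e2]
          have e3 : -ρ ≤ σ * t ∧ σ * t ≤ ρ := by
            rcases hσ with rfl | rfl <;> constructor <;> linarith
          exact pow_le_pow_left₀ (by linarith [e3.1]) (by linarith [e3.2]) 2
        have e4 : (c * √3 / 2 - 1) ^ 2 ≤ 1 - 1.732 * c + 3 / 4 * c ^ 2 := by
          nlinarith
        have e5 : c ≤ 1 / 40000 := by linarith
        nlinarith
      · have := o2 y hy
        linarith
  · rw [Finset.card_insert_of_notMem]
    intro h
    obtain ⟨-, u, ε, hT, hdis⟩ := tri v h
    exact (Set.disjoint_left.1 hdis) (mem_ball_self hT.pos) hvr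

end

end H11ST.Tower
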