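import Pool.Agent.Helper27.ST.Tower
import Pool.Agent.H11ST.Main
open MeasureTheory Metric Set Filter Topology
open scoped ENNReal NNReal

/-! # Lower bound for `N d t` as `t → 1`, in every dimension -/

namespace H11ST.Tower
open H11ST.EX
open scoped Classical
set_option linter.unusedSectionVars false

/-- the radii of the tower -/
noncomputable def rr (k : ℕ) : ℝ := 10 ^ 5 * (1 / 10 ^ 5) ^ (3 ^ k)

theorem rr_succ (k : ℕ) : rr (k + 1) = rr k ^ 3 / 10 ^ 10 := by
  rw [rr, rr, pow_succ 3 k, pow_mul]
  ring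

section
variable {V : Type*} [NormedAddCommGroup V] [InnerProductSpace ℝ V] [MeasurableSpace V]
  [BorelSpace V] [ProperSpace V] {e f : V}

theorem base (he : ‖e‖ = 1) (hf : ‖f‖ = 1) (hef : inner ℝ e f = 0) :
    Stg (closedBall (0 : V) 20) e f 1 0 10 1 10 {(0 : V) + (10 : ℝ) • dir e f 1} ∅
      {(0 : V) + (10 : ℝ) • dir e f 1} := by
  have hn := dir_norm he hf hef (σ := 1) (Or.inl rfl)
  have hE : ‖(0 : V) + (10 : ℝ) • dir e f 1‖ = 10 := by
    rw [zero_add, norm_smul, hn]; norm_num
  have h3 := sq3'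
  have h3lo : (1.732 : ℝ) ≤ √3 := by
    rw [Real.le_sqrt' (by norm_num)]; norm_num
  refine ⟨by norm_num, le_rfl, by norm_num, le_rfl, ?_, ?_, Finset.singleton_nonempty _, ?_, ?_, ?_,
    isCompact_singleton, isConnected_singleton, ?_, rfl, ?_, ?_, ?_, ?_⟩
  · intro z hz
    rw [mem_closedBall]; rw [mem_ball] at hz; linarith
  · intro a ha
    rw [Finset.mem_singleton.1 ha, mem_closedBall, dist_zero_right, hE]; norm_num
  · intro a ha hb
    rw [Finset.mem_singleton.1 ha, mem_ball, dist_zero_right, hE] at hb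
    norm_num at hb
  · intro z _
    rw [tau_single]
  · intro z _ B C hB hC hd hu
    exfalso
    have h1 := Finset.card_union_of_disjoint hd
    rw [hu, Finset.card_singleton] at h1
    have h2 := hB.card_pos
    have h4 := hC.card_pos
    omega
  · intro a ha
    exact Finset.mem_singleton.1 ha
  · intro z hz hb
    rw [mem_singleton_iff.1 hz, mem_ball, dist_zero_right, hE] at hb
    norm_num at hb
  · rw [fin_measure_zero (finite_singleton _)]; exact zero_le
  · intro y hy
    exact absurd hy (Finset.notMem_empty y)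
  · intro t ht
    obtain ⟨t1, t2⟩ := abs_lt.1 ht
    refine ⟨fun a ha => ?_, fun y hy => absurd hy (Finset.notMem_empty y)⟩
    rw [Finset.mem_singleton.1 ha]
    refine le_of_sq_le_sq ?_ dist_nonneg
    rw [smul_dir, dist_vec he hf hef]
    nlinarith

theorem stages (he : ‖e‖ = 1) (hf : ‖f‖ = 1) (hef : inner ℝ e f = 0) (k : ℕ) :
    ∃ (σ : ℝ) (P : V) (l s : ℝ) (A Y : Finset V) (S : Set V), (σ = 1 ∨ σ = -1) ∧
      Stg (closedBall (0 : V) 20) e f σ P l (rr k) s A Y S ∧ Y.card = k := by
  induction k with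
  | zero =>
    have h0 : rr 0 = 1 := by rw [rr]; norm_num
    rw [h0]
    exact ⟨1, 0, 10, 10, _, _, _, Or.inl rfl, base he hf hef, Finset.card_empty⟩
  | succ k ih =>
    obtain ⟨σ, P, l, s, A, Y, S, hσ, h, hk⟩ := ih
    obtain ⟨P', l', s', A', Y', S', h', hk'⟩ :=
      step (isCompact_closedBall 0 20) (convex_closedBall 0 20) he hf hef hσ h
    refine ⟨-σ, P', l', s', A', Y', S', ?_, ?_, by omega⟩
    · rcases hσ with rfl | rfl
      · right; rfl
      · left; norm_num
    · rw [rr_succ]; exact h'

end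

/-- **The tower**: at least `k` branching points as soon as `1 - t < 10 ^ 5 * 10 ^ (-5 * 3 ^ k)`. -/
theorem tower {d : ℕ} (hd : 2 ≤ d) (k : ℕ) {t : ℝ} (ht : 1 - rr k < t) : (k : ℕ∞) ≤ N d t := by
  obtain ⟨e, f, he, hf, hef⟩ := exists_pair hd
  obtain ⟨σ, P, l, s, A, Y, S, hσ, h, hk⟩ := stages he hf hef k
  obtain ⟨r0, r1, rs, sl, sub, AR, Ane, Afar, lb, gap, Sc, Sn, AS, vS, Sfar, mu, tri, out⟩ := h
  obtain ⟨o1, o2⟩ := out 0 (by rw [abs_zero]; exact r0)
  set c : E d := P + vec e f 0 1 with hc
  set D := dir e f σ with hD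
  have hDn : ‖D‖ = 1 := dir_norm he hf hef hσ
  set T : Set (E d) := S ∪ segment ℝ P (P + s • D) with hT
  set B : Finset (E d) := insert P A with hB
  have hPr : P ∈ ball P (rr k) := mem_ball_self r0
  have hPA : P ∉ A := fun h => Afar P h hPr
  have hsegc : IsCompact (segment ℝ P (P + s • D)) := by
    rw [segment_eq_image_lineMap]
    exact isCompact_Icc.image (by fun_prop)
  have hTc : IsCompact T := Sc.union hsegc
  have hTn : IsConnected T := Sn.union ⟨P + s • D, vS, right_mem_segment ℝ _ _⟩
    ((convex_segment _ _).isConnected ⟨P, left_mem_segment ℝ _ _⟩)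
  have hBT : ∀ b ∈ B, b ∈ T := by
    intro b hb
    rcases Finset.mem_insert.1 hb with rfl | hb
    · exact Or.inr (left_mem_segment ℝ _ _)
    · exact Or.inl (AS b hb)
  have hlen : μH[1] T ≤ ENNReal.ofReal l := by
    calc μH[1] T ≤ μH[1] S + μH[1] (segment ℝ P (P + s • D)) := measure_union_le _ _
      _ ≤ ENNReal.ofReal (l - s) + ENNReal.ofReal s := by
          refine add_le_add mu ?_
          rw [hausdorffMeasure_segment, edist_dist, dist_eq_norm, sub_add_cancel_left, norm_neg,
            norm_smul, hDn, mul_one, Real.norm_eq_abs, abs_of_nonneg (by linarith)]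
      _ = ENNReal.ofReal l := by
          rw [← ENNReal.ofReal_add (by linarith) (by linarith)]; congr 1; ring
  have hTB : T ∪ (B : Set (E d)) = T := union_eq_left.2 fun b hb => hBT b (Finset.mem_coe.1 hb)
  have hadm : Admissible (B : Set (E d)) T c 1 := by
    refine ⟨B.finite_toSet.isCompact, ⟨hTc.isClosed, ?_, ?_⟩, hTn, one_pos, ?_,
      lt_of_le_of_lt hlen ENNReal.ofReal_lt_top⟩
    · rw [hTB]; exact hTn
    · intro X hX hXB
      by_cases hfin : μH[1] X = ∞
      · rw [hfin]; exact le_top
      have h1 : μH[1] (X ∪ (B : Set (E d))) ≤ μH[1] X := by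
        refine (measure_union_le _ _).trans ?_
        rw [fin_measure_zero B.finite_toSet, add_zero]
      have h2 : μH[1] (X ∪ (B : Set (E d))) ≠ ∞ := ne_top_of_le_ne_top hfin h1
      have h3 := tau_lower (isCompact_closedBall (0 : E d) 20) (convex_closedBall 0 20)
        (A := B) (by
          intro a ha
          rcases Finset.mem_insert.1 ha with rfl | ha
          · exact sub hPr
          · exact AR a ha) (Finset.mem_insert_self P A) (T := X ∪ (B : Set (E d)))
        (hX.union B.finite_toSet.isClosed) hXB (fun a ha => Or.inr (Finset.mem_coe.2 ha)) h2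
      have hmB : ∀ y, y ∈ B ↔ y = P ∨ y ∈ A := fun y => by rw [hB, Finset.mem_insert]
      have hBe : ∀ inst : DecidableEq (E d), @Finset.erase (E d) inst B P = A := by
        intro inst
        ext y
        rw [Finset.mem_erase, hmB]
        constructor
        · rintro ⟨h6, h7⟩
          exact h7.resolve_left h6
        · intro h6
          exact ⟨fun h => hPA (h ▸ h6), Or.inr h6⟩
      rw [hBe] at h3
      have h4 := lb P hPr
      have h5 : dist P (P + l • D) = l := by
        rw [dist_eq_norm, sub_add_cancel_left, norm_neg, norm_smul, hDn, mul_one,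
          Real.norm_eq_abs, abs_of_nonneg (by linarith)]
      rw [h5] at h4
      calc μH[1] T ≤ ENNReal.ofReal l := hlen
        _ ≤ ENNReal.ofReal (μH[1] (X ∪ (B : Set (E d)))).toReal :=
            ENNReal.ofReal_le_ofReal (h4.trans h3)
        _ = μH[1] (X ∪ (B : Set (E d))) := ENNReal.ofReal_toReal h2
        _ ≤ μH[1] X := h1
    · ext b
      simp only [mem_inter_iff, Finset.mem_coe, mem_ball, mem_empty_iff_false, iff_false, not_and,
        not_lt]
      intro hb
      rcases Finset.mem_insert.1 hb with rfl | hb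
      · have : dist b c ^ 2 = 1 := by
          have h1 := dist_vec he hf hef b 0 0 0 1
          rw [show b + vec e f 0 0 = b by simp [vec]] at h1
          rw [hc, h1]; norm_num
        nlinarith [dist_nonneg (x := b) (y := c)]
      · exact o1 b hb
  refine le_N hadm ?_
  rw [← hk, ← Set.encard_coe_eq_coe_finsetCard]
  refine Set.encard_le_encard fun y hy => ?_
  obtain ⟨hyA, u, ε, hTri, hdis⟩ := tri y (Finset.mem_coe.1 hy)
  refine ⟨?_, ?_, u, ε, hTri.pos, hTri.norm, hTri.ang, hTri.eq⟩
  · rw [mul_one, mem_ball]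
    have := o2 y (Finset.mem_coe.1 hy)
    linarith
  · intro h
    rcases Finset.mem_insert.1 (Finset.mem_coe.1 h) with h | h
    · exact (Set.disjoint_left.1 hdis) (mem_ball_self hTri.pos) (h ▸ hPr)
    · exact hyA h

/-- **Growth**: `N d t ≥ c (1 + log (1 + log (1 / (1 - t))))` in every dimension `d ≥ 2`. -/
theorem loglog_lower {d : ℕ} (hd : 2 ≤ d) : ∃ c : ℝ, 0 < c ∧ ∀ t : ℝ, 0 < t → t < 1 →
    ∃ m : ℕ, (m : ℕ∞) ≤ N d t ∧ c * (1 + Real.log (1 + Real.log (1 / (1 - t)))) ≤ m := by
  refine ⟨1 / 60, by norm_num, fun t ht0 ht1 => ?_⟩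
  set L := Real.log (1 / (1 - t)) with hL
  have h1t : 0 < 1 - t := by linarith
  have hL0 : 0 ≤ L := Real.log_nonneg (by rw [le_div_iff₀ h1t]; linarith)
  rcases lt_or_ge L 46 with h46 | h46
  · refine ⟨1, one_le_N hd ht0, ?_⟩
    have h1 : Real.log (1 + L) ≤ L := by
      have := Real.log_le_sub_one_of_pos (show 0 < 1 + L by linarith)
      linarith
    push_cast
    linarith
  · obtain ⟨k, hk1, hk2⟩ := exists_nat_pow_near (x := L / 46) (y := (3 : ℝ))
      (by rw [le_div_iff₀ (by norm_num)]; linarith) (by norm_num)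
    rw [le_div_iff₀ (by norm_num)] at hk1
    rw [div_lt_iff₀ (by norm_num)] at hk2
    have h3k : (0 : ℝ) < 3 ^ k := by positivity
    have hlog10 : Real.log (10 ^ 5) ≤ 45 := by
      have h1 := Real.log_le_sub_one_of_pos (show (0 : ℝ) < 10 by norm_num)
      rw [Real.log_pow]
      push_cast
      linarith
    -- the radius
    have hrr : 1 - t < rr k := by
      have h1 : Real.log (1 - t) = -L := by
        rw [hL, one_div, Real.log_inv, neg_neg]
      have h2 : Real.log (rr k) = Real.log (10 ^ 5) - 3 ^ k * Real.log (10 ^ 5) := by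
        have a1 : Real.log ((1 / 10 ^ 5 : ℝ) ^ (3 ^ k)) =
            ((3 ^ k : ℕ) : ℝ) * Real.log (1 / 10 ^ 5) := Real.log_pow _ _
        have a2 : Real.log (1 / 10 ^ 5 : ℝ) = -Real.log (10 ^ 5) := by
          rw [one_div, Real.log_inv]
        rw [rr, Real.log_mul (by positivity) (by positivity), a1, a2]
        push_cast
        ring
      have h3 : 0 < Real.log (10 ^ 5) := Real.log_pos (by norm_num)
      have h4 : Real.log (1 - t) < Real.log (rr k) := by
        rw [h1, h2]
        nlinarith
      have h5 : 0 < rr k := by rw [rr]; positivity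
      exact (Real.log_lt_log_iff h1t h5).1 h4
    have hlog : Real.log (1 + L) ≤ 46 + (k + 1) * 2 := by
      have h1 : 1 + L ≤ 47 * 3 ^ (k + 1) := by
        have : (1 : ℝ) ≤ 3 ^ (k + 1) := one_le_pow₀ (by norm_num)
        nlinarith
      calc Real.log (1 + L) ≤ Real.log (47 * 3 ^ (k + 1)) := Real.log_le_log (by linarith) h1
        _ = Real.log 47 + (k + 1) * Real.log 3 := by
            rw [Real.log_mul (by norm_num) (by positivity), Real.log_pow]; push_cast; ring
        _ ≤ 46 + (k + 1) * 2 := by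
            have h2 := Real.log_le_sub_one_of_pos (show (0 : ℝ) < 47 by norm_num)
            have h3 := Real.log_le_sub_one_of_pos (show (0 : ℝ) < 3 by norm_num)
            have h4 : (0 : ℝ) ≤ k := Nat.cast_nonneg k
            nlinarith
    rcases Nat.eq_zero_or_pos k with rfl | hkp
    · refine ⟨1, one_le_N hd ht0, ?_⟩
      push_cast at hlog ⊢
      linarith
    · refine ⟨k, tower hd k (by linarith), ?_⟩
      have h4 : (1 : ℝ) ≤ k := by exact_mod_cast hkp
      linarith

end H11ST.Tower
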